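import Pool.Agent.Q1.M3.Asm.Row

set_option autoImplicit false
open Finset

/-! # Module M3, assembly: the sides of the region on a box -/

namespace Pool.Agent.Q1.M3.Asm

open Pool.Agent.H75.Perc Pool.Agent.H75.TwoArm Pool.Agent.H75.Four
open Pool.Agent.H69.Q1 Pool.Agent.H28.Q1
open Pool.Agent.H75.TwoArm.StrandAux hiding vx_nxC
open Pool.Agent.H21.Q1 (Sol Wt InvL rl rc per rc_per per_pos Root)
open Pool.Agent.Q1.M3.Pg
open Pool.Agent.Q1.M4 (Adj4 Conn4 Good IsSide inV inRect nextSide tail head dir_neg)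
open Pool.Agent.H48.Q1.M3 (lb rt lt cr At lb_neg unit_rt plab_cr lb_kap_iff lb_perp_iff step1 lb_add
  lb_inj)

/-! ### Geometry of the walk -/

lemma dir_abs (k : ℤ) : |(dir k).1| ≤ 1 ∧ |(dir k).2| ≤ 1 := by
  rcases dir_cases k with ⟨-, e⟩ | ⟨-, e⟩ | ⟨-, e⟩ | ⟨-, e⟩ <;> rw [e] <;> simp

/-- Consecutive sides have outer cells at distance at most 2. -/
lemma next_near (Q : Finset (ℤ × ℤ)) (s : (ℤ × ℤ) × ℤ) :
    |(outc (nextSide Q s)).1 - (outc s).1| ≤ 2 ∧ |(outc (nextSide Q s)).2 - (outc s).2| ≤ 2 := by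
  obtain ⟨⟨a, b⟩, k⟩ := s
  unfold outc nextSide
  have e0 := dir_cases k
  have e1 := dir_cases (k - 1)
  have e2 := dir_cases (k - 1 - 1)
  have e3 := dir_cases (k + 1 - 1)
  simp only
  split_ifs
  · simp only
    rcases e0 with ⟨h0, e0⟩ | ⟨h0, e0⟩ | ⟨h0, e0⟩ | ⟨h0, e0⟩ <;>
    rcases e1 with ⟨h1, e1⟩ | ⟨h1, e1⟩ | ⟨h1, e1⟩ | ⟨h1, e1⟩ <;>
    first
    | (exfalso; omega)
    | (rcases e2 with ⟨h2, e2⟩ | ⟨h2, e2⟩ | ⟨h2, e2⟩ | ⟨h2, e2⟩ <;>
      first
      | (exfalso; omega)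
      | (rw [e0, e1, e2]
         simp only [Prod.mk_add_mk]
         constructor <;> rw [abs_le] <;> constructor <;> omega))
  · simp only
    rcases e0 with ⟨h0, e0⟩ | ⟨h0, e0⟩ | ⟨h0, e0⟩ | ⟨h0, e0⟩ <;>
    rcases e1 with ⟨h1, e1⟩ | ⟨h1, e1⟩ | ⟨h1, e1⟩ | ⟨h1, e1⟩ <;>
    first
    | (exfalso; omega)
    | (rw [e0, e1]
       simp only [Prod.mk_add_mk]
       constructor <;> rw [abs_le] <;> constructor <;> omega)
  · simp only
    rcases e3 with ⟨h3, e3⟩ | ⟨h3, e3⟩ | ⟨h3, e3⟩ | ⟨h3, e3⟩ <;>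
    rcases e1 with ⟨h1, e1⟩ | ⟨h1, e1⟩ | ⟨h1, e1⟩ | ⟨h1, e1⟩ <;>
    first
    | (exfalso; omega)
    | (rw [e3, e1]
       simp only [Prod.mk_add_mk]
       constructor <;> rw [abs_le] <;> constructor <;> omega)

lemma rt_dir (k : ℤ) : rt (-(dir (k - 1))) = dir k := by
  rcases dir_cases (k - 1) with ⟨h1, e1⟩ | ⟨h1, e1⟩ | ⟨h1, e1⟩ | ⟨h1, e1⟩ <;>
  rcases dir_cases k with ⟨h0, e0⟩ | ⟨h0, e0⟩ | ⟨h0, e0⟩ | ⟨h0, e0⟩ <;>
  first
  | (exfalso; omega)
  | (rw [e1, e0]; unfold rt; simp)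

/-! ### Labels of a side -/

section

variable {d : SD} {o : ℂ} {δ : ℝ}

/-- the inward direction of a side -/
noncomputable def sD (d : SD) (n : ℕ) : ℤ × ℤ := -(dir ((d.sid n).2 - 1))

/-- the point behind the `j`-th point of a side -/
noncomputable def bp (d : SD) (o : ℂ) (δ : ℝ) (n j : ℕ) : ℤ × ℤ :=
  d.pt' o δ n j + dir ((d.sid n).2 - 1)

lemma unit_sD (n : ℕ) : IsUnit4 (sD d n) := Pool.Agent.Q1.M3.Pg.isUnit4_neg (isUnit4_dir _)

lemma bp_add (n j : ℕ) : bp d o δ n j + sD d n = d.pt' o δ n j := by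
  unfold bp sD; abel

lemma ol_eq (n j : ℕ) : d.ol o δ n j = lb (bp d o δ n j) (sD d n) := by
  have h1 : d.ol o δ n j = d.pt' o δ n j + (d.pt' o δ n j + dir ((d.sid n).2 - 1)) := outl_eq _ _
  rw [h1]
  unfold bp sD
  rw [lb_neg, lb_add]

lemma pt_succ (n j : ℕ) : d.pt' o δ n (j + 1) = d.pt' o δ n j + dir (d.sid n).2 :=
  Pool.Agent.H5.Q1.sp_succ _ _ _ _

lemma bp_succ (n j : ℕ) : bp d o δ n (j + 1) = bp d o δ n j + rt (sD d n) := by
  unfold bp sD
  rw [rt_dir, pt_succ]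
  abel

lemma side_boxes (h : d.Ok) (hf : d.Fine o δ) {n j : ℕ} (hj : 0 < j) (hj' : j < d.ln o δ n) :
    box δ o d.K (d.pt' o δ n j) ∈ d.R ∧ box δ o d.K (bp d o δ n j) = d.oc' n := by
  obtain ⟨h1, h2⟩ := SD.side_box' h hf hj hj'
  exact ⟨by rw [h1]; exact (SD.isSide h n).1, h2⟩

end

/-! ### The state -/

/-- Facts on the solid set and the free labels of a state. -/
structure Sta (d : SD) (o : ℂ) (δ : ℝ) (X : DEnv) (Kv : Finset (ℤ × ℤ)) : Prop where
  ok : d.Ok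
  fine : d.Fine o δ
  sol : Sol X Kv
  hE : plab X.β ∉ X.E
  /-- no vertex of the region in the solid set -/
  notR : ∀ v ∈ Kv, box δ o d.K v ∉ d.R
  /-- the vertices of the coarse family -/
  flat : ∀ v, box δ o d.K v ∈ flat d.K d.C → v ∈ Kv ∧ ∀ D, IsUnit4 D → lb v D ∈ X.E
  /-- every label across the run is on the ring -/
  ring : ∀ n j, d.n1 ≤ n → n < d.n2 → 0 < j → j < d.ln o δ n → d.ol o δ n j ∈ perp Kv →
    ∃ i < per X Kv, rl X Kv i = d.ol o δ n j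
  /-- the positions increase -/
  mono : ∀ n j n' j', d.n1 ≤ n → n < d.n2 → d.n1 ≤ n' → n' < d.n2 → 0 < j → j < d.ln o δ n →
    0 < j' → j' < d.ln o δ n' → d.ol o δ n j ∈ perp Kv → d.ol o δ n' j' ∈ perp Kv →
    (n < n' ∨ (n = n' ∧ j < j')) → ∀ i < per X Kv, ∀ i' < per X Kv,
      rl X Kv i = d.ol o δ n j → rl X Kv i' = d.ol o δ n' j' → i < i'

namespace Sta

variable {d : SD} {o : ℂ} {δ : ℝ} {X : DEnv} {Kv : Finset (ℤ × ℤ)} (S : Sta d o δ X Kv)

include S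

lemma perp_ol {n j : ℕ} (hn : d.oc' n ∈ Pg.flat d.K d.C) (hj : 0 < j) (hj' : j < d.ln o δ n) :
    d.ol o δ n j ∈ perp Kv ∧ bp d o δ n j ∈ Kv ∧ bp d o δ n j + sD d n ∉ Kv := by
  obtain ⟨h1, h2⟩ := side_boxes S.ok S.fine hj hj'
  have h3 := (S.flat _ (by rw [h2]; exact hn)).1
  have h4 : bp d o δ n j + sD d n ∉ Kv := by
    rw [bp_add]
    exact fun h5 => S.notR _ h5 h1
  refine ⟨?_, h3, h4⟩
  rw [ol_eq, lb_perp_iff _ (unit_sD n)]
  exact Or.inl ⟨h3, h4⟩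

/-- positions along one side are consecutive -/
lemma side_step {n j : ℕ} (hn : d.oc' n ∈ Pg.flat d.K d.C) (hj : 0 < j)
    (hj' : j + 1 < d.ln o δ n) {i : ℕ} (hi : i < per X Kv) (h : rl X Kv i = d.ol o δ n j) :
    i + 2 < per X Kv ∧ rl X Kv (i + 2) = d.ol o δ n (j + 1) ∧ rl X Kv (i + 1) ∉ perp Kv := by
  obtain ⟨-, h2, h3⟩ := S.perp_ol hn hj (by omega)
  obtain ⟨-, h5, h6⟩ := S.perp_ol hn (j := j + 1) (by omega) hj'
  have b1 := (side_boxes S.ok S.fine hj (by omega : j < d.ln o δ n)).2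
  have b2 := (side_boxes S.ok S.fine (j := j + 1) (by omega) hj').2
  rw [bp_succ] at h5 h6
  have h7 := (S.flat _ (by rw [b1]; exact hn)).2
  have h8 := (S.flat _ (by rw [b2]; exact hn)).2
  rw [bp_succ] at h8
  rw [ol_eq] at h
  rw [ol_eq, bp_succ]
  exact straight_pos S.sol.beta S.hE (unit_sD n) h2 h3 h5 h6 (h7 _ (unit_rt (unit_sD n)))
    (h8 _ (unit_sD n)) hi h

end Sta

/-! ### Coarse boxes -/

/-- The coarse box of a unit cell. -/
def cb (m : ℕ) (c : ℤ × ℤ) : ℤ × ℤ := (c.1 / 3 ^ m, c.2 / 3 ^ m)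

lemma floor_coarse (z : ℝ) (m : ℕ) : ⌊z / 3 ^ m⌋ = ⌊z⌋ / 3 ^ m := by
  have h3 : (0 : ℤ) < 3 ^ m := by positivity
  have h3' : (0 : ℝ) < 3 ^ m := by positivity
  refine eq_of_forall_le_iff fun t => ?_
  rw [Int.le_floor, le_div_iff₀ h3', Int.le_ediv_iff_mul_le h3, Int.le_floor]
  push_cast
  rfl

lemma box_coarse {k K : ℕ} (hk : k ≤ K) (δ : ℝ) (o : ℂ) (v : ℤ × ℤ) :
    box δ o k v = cb (K - k) (box δ o K v) := by
  have hp := mesh_pos (K + 1)
  have hm : mesh (k + 1) = 3 ^ (K - k) * mesh (K + 1) := by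
    unfold mesh
    have h1 : (1 / 3 : ℝ) ^ (K + 1) = (1 / 3) ^ (k + 1) * (1 / 3) ^ (K - k) := by
      rw [← pow_add]; congr 1; omega
    rw [h1]
    have h2 : (3 : ℝ) ^ (K - k) * (1 / 3) ^ (K - k) = 1 := by
      rw [← mul_pow]; norm_num
    calc (1 / 3 : ℝ) ^ (k + 1) = (1 / 3) ^ (k + 1) * (3 ^ (K - k) * (1 / 3) ^ (K - k)) := by
          rw [h2, mul_one]
      _ = _ := by ring
  have key : ∀ y : ℝ, ⌊y / mesh (k + 1)⌋ = ⌊y / mesh (K + 1)⌋ / 3 ^ (K - k) := by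
    intro y
    rw [hm, mul_comm, ← div_div, floor_coarse]
  unfold box cb
  simp only
  rw [key, key]

lemma cb_mono (m : ℕ) {a b : ℤ} (h : a ≤ b) : a / 3 ^ m ≤ b / 3 ^ m :=
  Int.ediv_le_ediv (by positivity) h

/-- The side `n` is on the box `x` in the direction `D`. -/
def OnX (d : SD) (k : ℕ) (x D : ℤ × ℤ) (n : ℕ) : Prop :=
  cb (d.K - k) (d.oc' n) = x ∧ sD d n = D

/-- The cut `y` of the ring corresponds to the side `n1 + m`. -/
def Cut (d : SD) (o : ℂ) (δ : ℝ) (X : DEnv) (Kv : Finset (ℤ × ℤ)) (y m : ℕ) : Prop :=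
  ∀ n, d.n1 ≤ n → n < d.n2 → d.oc' n ∈ Pg.flat d.K d.C → ∀ j, 0 < j → j < d.ln o δ n →
    ∀ i < per X Kv, rl X Kv i = d.ol o δ n j → (y ≤ i ↔ d.n1 + m ≤ n)

section

variable {d : SD} {o : ℂ} {δ : ℝ} {X : DEnv} {Kv : Finset (ℤ × ℤ)} {k : ℕ} {x D : ℤ × ℤ}

/-- The vertices of the box are in the solid set, nothing else is near the box. -/
structure Bxd (d : SD) (o : ℂ) (δ : ℝ) (X : DEnv) (Kv : Finset (ℤ × ℤ)) (k : ℕ) (x D : ℤ × ℤ) :
    Prop where
  hk : k ≤ d.K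
  unit : IsUnit4 D
  r1 : ∀ v, box δ o k v = x → v ∈ Kv ∧ ∀ D, IsUnit4 D → lb v D ∈ X.E
  r2 : ∀ v, Row (box δ o k) x D v → v + D ∉ Kv
  r3 : ∀ c, cb (d.K - k) c = x → c ∈ Pg.flat d.K d.C
  far : ∀ c c', c ∈ fc d.K d.B → cb (d.K - k) c' = x → |c.1 - c'.1| ≤ 2 → |c.2 - c'.2| ≤ 2 → False

lemma side_iff (S : Sta d o δ X Kv) (H : Bxd d o δ X Kv k x D) {n j i : ℕ}
    (hn : d.oc' n ∈ Pg.flat d.K d.C) (hj : 0 < j) (hj' : j < d.ln o δ n) (hi : i < per X Kv)
    (h : rl X Kv i = d.ol o δ n j) : PosR X Kv (box δ o k) x D i ↔ OnX d k x D n := by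
  obtain ⟨h1, h2, h3⟩ := S.perp_ol hn hj hj'
  have hb := (side_boxes S.ok S.fine hj hj').2
  constructor
  · rintro ⟨-, v, hv, h4⟩
    rw [h, ol_eq] at h4
    rcases lb_inj (unit_sD n) H.unit h4 with ⟨h5, h6⟩ | ⟨h5, h6⟩
    · refine ⟨?_, h6⟩
      rw [← hb, ← box_coarse H.hk, h5]
      exact hv.1
    · exfalso
      rw [h5] at hv
      have h7 := H.r2 _ hv
      rw [h6] at h7
      apply h7
      rw [add_neg_cancel_right]
      exact h2
  · rintro ⟨h4, h5⟩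
    refine ⟨hi, bp d o δ n j, ⟨?_, ?_⟩, ?_⟩
    · rw [box_coarse H.hk, hb]; exact h4
    · intro h6
      rw [← h5] at h6
      exact h3 (H.r1 _ h6).1
    · rw [h, ol_eq, h5]

lemma two_lt (S : Sta d o δ X Kv) (n : ℕ) : 1 < d.ln o δ n := by
  have := SD.three_ln S.fine n
  omega

/-- a side is not cut by an interval which does not contain its labels -/
lemma no_mix (S : Sta d o δ X Kv) {n : ℕ} (hn1 : d.n1 ≤ n) (hn2 : n < d.n2)
    (hn : d.oc' n ∈ Pg.flat d.K d.C) {p0 p1 : ℕ} (hp : p0 ≤ p1) (hp0 : rl X Kv p0 ∈ perp Kv)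
    (hout : ∀ j i, 0 < j → j < d.ln o δ n → i < per X Kv → rl X Kv i = d.ol o δ n j →
      ¬ (p0 ≤ i ∧ i ≤ p1)) {j j' i i' : ℕ} (hj : 0 < j) (hj1 : j < d.ln o δ n) (hj' : 0 < j')
    (hj1' : j' < d.ln o δ n) (hi : i < per X Kv) (hi' : i' < per X Kv)
    (h : rl X Kv i = d.ol o δ n j) (h' : rl X Kv i' = d.ol o δ n j') (h1 : i < p0) (h2 : p1 < i') :
    False := by
  have hper : ∀ m, 0 < m → m < d.ln o δ n → d.ol o δ n m ∈ perp Kv := fun m a b =>
    (S.perp_ol hn a b).1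
  have hjj : j < j' := by
    rcases lt_trichotomy j j' with h3 | h3 | h3
    · exact h3
    · subst h3
      have := S.sol.rl_inj hi hi' (h.trans h'.symm) (by rw [h]; exact hper _ hj hj1)
      omega
    · have := S.mono n j' n j hn1 hn2 hn1 hn2 hj' hj1' hj hj1 (hper _ hj' hj1') (hper _ hj hj1)
        (Or.inr ⟨rfl, h3⟩) i' hi' i hi h' h
      omega
  have key : ∀ m, j + m ≤ j' → ∃ q < per X Kv, rl X Kv q = d.ol o δ n (j + m) ∧ q < p0 := by
    intro m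
    induction m with
    | zero => intro _; exact ⟨i, hi, h, h1⟩
    | succ m ih =>
      intro hm
      obtain ⟨q, q1, q2, q3⟩ := ih (by omega)
      obtain ⟨s1, s2, s3⟩ := S.side_step hn (j := j + m) (by omega) (by omega) q1 q2
      refine ⟨q + 2, s1, s2, ?_⟩
      by_contra hcon
      have h4 := hout (j + m + 1) (q + 2) (by omega) (by omega) s1 s2
      have h5 : p0 = q + 1 := by omega
      rw [← h5] at s3
      exact s3 hp0
  obtain ⟨q, q1, q2, q3⟩ := key (j' - j) (by omega)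
  rw [show j + (j' - j) = j' by omega] at q2
  have := S.sol.rl_inj q1 hi' (q2.trans h'.symm) (by rw [q2]; exact hper _ hj' hj1')
  omega

/-- **The sides on a box are an interval, the cuts correspond.** -/
theorem cuts (S : Sta d o δ X Kv) (H : Bxd d o δ X Kv k x D) {p0 p1 : ℕ} (hp : p0 ≤ p1)
    (hP : ∀ q < per X Kv, rl X Kv q ∈ perp Kv →
      (PosR X Kv (box δ o k) x D q ↔ p0 ≤ q ∧ q ≤ p1)) (hp0 : rl X Kv p0 ∈ perp Kv) :
    ∃ a b, d.n1 ≤ a ∧ a ≤ b ∧ b ≤ d.n2 ∧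
      (∀ n, d.n1 ≤ n → n < d.n2 → (OnX d k x D n ↔ a ≤ n ∧ n < b)) ∧
      Cut d o δ X Kv p0 (a - d.n1) ∧ Cut d o δ X Kv (p1 + 1) (b - d.n1) := by
  classical
  have hn12 := S.ok.mark.le
  have hC : ∀ n, OnX d k x D n → d.oc' n ∈ Pg.flat d.K d.C := fun n h => H.r3 _ h.1
  -- positions of the labels of the sides on the box
  have pos_on : ∀ n j i, d.n1 ≤ n → n < d.n2 → d.oc' n ∈ Pg.flat d.K d.C → 0 < j →
      j < d.ln o δ n → i < per X Kv → rl X Kv i = d.ol o δ n j →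
      (OnX d k x D n ↔ p0 ≤ i ∧ i ≤ p1) := by
    intro n j i h1 h2 h3 h4 h5 h6 h7
    rw [← side_iff S H h3 h4 h5 h6 h7]
    exact hP i h6 (by rw [h7]; exact (S.perp_ol h3 h4 h5).1)
  by_cases hI : ∃ n, d.n1 ≤ n ∧ n < d.n2 ∧ OnX d k x D n
  · -- first and last side on the box
    obtain ⟨a, ⟨a1, a2, a3⟩, amin⟩ : ∃ a, (d.n1 ≤ a ∧ a < d.n2 ∧ OnX d k x D a) ∧
        ∀ n, d.n1 ≤ n → n < d.n2 → OnX d k x D n → a ≤ n :=
      ⟨Nat.find hI, Nat.find_spec hI, fun n h1 h2 h3 => Nat.find_min' hI ⟨h1, h2, h3⟩⟩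
    obtain ⟨b, ⟨b1, b2, b3⟩, bmax⟩ : ∃ b, (d.n1 ≤ b ∧ b < d.n2 ∧ OnX d k x D b) ∧
        ∀ n, d.n1 ≤ n → n < d.n2 → OnX d k x D n → n ≤ b := by
      obtain ⟨T, hT⟩ : ∃ T : Finset ℕ, ∀ n, n ∈ T ↔ (d.n1 ≤ n ∧ n < d.n2 ∧ OnX d k x D n) :=
        ⟨(range d.n2).filter fun n => d.n1 ≤ n ∧ n < d.n2 ∧ OnX d k x D n, fun n => by
          rw [mem_filter, mem_range]; exact ⟨fun h => h.2, fun h => ⟨h.2.1, h⟩⟩⟩
      have hne : T.Nonempty := ⟨a, (hT a).2 ⟨a1, a2, a3⟩⟩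
      exact ⟨T.max' hne, (hT _).1 (T.max'_mem hne), fun n h1 h2 h3 =>
        T.le_max' n ((hT n).2 ⟨h1, h2, h3⟩)⟩
    have hab : a ≤ b := amin b b1 b2 b3
    obtain ⟨ib, ib1, ib2⟩ := S.ring b 1 b1 b2 one_pos (two_lt S b)
      (S.perp_ol (hC b b3) one_pos (two_lt S b)).1
    have ib3 := (pos_on b 1 ib b1 b2 (hC b b3) one_pos (two_lt S b) ib1 ib2).1 b3
    have all : ∀ m, a + m ≤ b → OnX d k x D (a + m) := by
      intro m
      induction m with
      | zero => intro _; exact a3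
      | succ m ih =>
        intro hm
        have hon := ih (by omega)
        by_cases heq : a + (m + 1) = b
        · rw [heq]; exact b3
        · have hr1 : d.n1 ≤ a + (m + 1) := by omega
          have hr2 : a + (m + 1) < d.n2 := by omega
          have hCn : d.oc' (a + (m + 1)) ∈ Pg.flat d.K d.C := by
            have h1 := (S.ok.mark.run (a + (m + 1)) (lt_of_lt_of_le hr2 S.ok.mark.le')).2
              ⟨hr1, hr2⟩
            have h2 : d.oc' (a + (m + 1)) ∈ d.H2 := SD.H_sub_H2 h1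
            have h3 : d.oc' (a + (m + 1)) ∈ Pg.flat d.K d.C ∪ (fc d.K d.B ∩ d.P) := h2
            rcases mem_union.1 h3 with h4 | h4
            · exact h4
            · exfalso
              have h5 := next_near d.R (d.sid (a + m))
              have h6 : nextSide d.R (d.sid (a + m)) = d.sid (a + (m + 1)) := by
                unfold SD.sid sd
                rw [← add_assoc, Function.iterate_succ_apply']
              rw [h6] at h5
              exact H.far _ _ (mem_inter.1 h4).1 hon.1 h5.1 h5.2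
          obtain ⟨i, i1, i2⟩ := S.ring _ 1 hr1 hr2 one_pos (two_lt S _)
            (S.perp_ol hCn one_pos (two_lt S _)).1
          obtain ⟨i', i1', i2'⟩ := S.ring (a + m) 1 (by omega) (by omega) one_pos (two_lt S _)
            (S.perp_ol (hC _ hon) one_pos (two_lt S _)).1
          have i3' := (pos_on (a + m) 1 i' (by omega) (by omega) (hC _ hon) one_pos (two_lt S _)
            i1' i2').1 hon
          have m1 := S.mono (a + m) 1 (a + (m + 1)) 1 (by omega) (by omega) hr1 hr2 one_pos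
            (two_lt S _) one_pos (two_lt S _) (S.perp_ol (hC _ hon) one_pos (two_lt S _)).1
            (S.perp_ol hCn one_pos (two_lt S _)).1 (Or.inl (by omega)) i' i1' i i1 i2' i2
          have m2 := S.mono (a + (m + 1)) 1 b 1 hr1 hr2 b1 b2 one_pos
            (two_lt S _) one_pos (two_lt S _) (S.perp_ol hCn one_pos (two_lt S _)).1
            (S.perp_ol (hC b b3) one_pos (two_lt S _)).1 (Or.inl (by omega)) i i1 ib ib1 i2 ib2
          exact (pos_on _ 1 i hr1 hr2 hCn one_pos (two_lt S _) i1 i2).2 ⟨by omega, by omega⟩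
    have hiff : ∀ n, d.n1 ≤ n → n < d.n2 → (OnX d k x D n ↔ a ≤ n ∧ n < b + 1) := by
      intro n h1 h2
      constructor
      · intro h3
        exact ⟨amin n h1 h2 h3, by have := bmax n h1 h2 h3; omega⟩
      · rintro ⟨h3, h4⟩
        have := all (n - a) (by omega)
        rwa [show a + (n - a) = n by omega] at this
    obtain ⟨ia, ia1, ia2⟩ := S.ring a 1 a1 a2 one_pos (two_lt S a)
      (S.perp_ol (hC a a3) one_pos (two_lt S a)).1
    have ia3 := (pos_on a 1 ia a1 a2 (hC a a3) one_pos (two_lt S a) ia1 ia2).1 a3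
    refine ⟨a, b + 1, a1, by omega, by omega, hiff, ?_, ?_⟩
    · intro n h1 h2 h3 j h4 h5 i h6 h7
      rw [show d.n1 + (a - d.n1) = a by omega]
      constructor
      · intro h8
        by_contra h9
        have m1 := S.mono n j a 1 h1 h2 a1 a2 h4 h5 one_pos (two_lt S a)
          (S.perp_ol h3 h4 h5).1 (S.perp_ol (hC a a3) one_pos (two_lt S a)).1
          (Or.inl (by omega)) i h6 ia ia1 h7 ia2
        have := (pos_on n j i h1 h2 h3 h4 h5 h6 h7).2 ⟨h8, by omega⟩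
        exact h9 (amin n h1 h2 this)
      · intro h8
        rcases Nat.eq_or_lt_of_le h8 with h9 | h9
        · subst h9
          exact ((pos_on a j i a1 a2 h3 h4 h5 h6 h7).1 a3).1
        · have m1 := S.mono a 1 n j a1 a2 h1 h2 one_pos (two_lt S a) h4 h5
            (S.perp_ol (hC a a3) one_pos (two_lt S a)).1 (S.perp_ol h3 h4 h5).1
            (Or.inl h9) ia ia1 i h6 ia2 h7
          omega
    · intro n h1 h2 h3 j h4 h5 i h6 h7
      rw [show d.n1 + (b + 1 - d.n1) = b + 1 by omega]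
      constructor
      · intro h8
        by_contra h9
        rcases Nat.eq_or_lt_of_le (show n ≤ b by omega) with h10 | h10
        · subst h10
          have := ((pos_on n j i h1 h2 h3 h4 h5 h6 h7).1 b3).2
          omega
        · have m1 := S.mono n j b 1 h1 h2 b1 b2 h4 h5 one_pos (two_lt S b)
            (S.perp_ol h3 h4 h5).1 (S.perp_ol (hC b b3) one_pos (two_lt S b)).1
            (Or.inl h10) i h6 ib ib1 h7 ib2
          omega
      · intro h8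
        have m1 := S.mono b 1 n j b1 b2 h1 h2 one_pos (two_lt S b) h4 h5
          (S.perp_ol (hC b b3) one_pos (two_lt S b)).1 (S.perp_ol h3 h4 h5).1
          (Or.inl (by omega)) ib ib1 i h6 ib2 h7
        by_contra h9
        have := (pos_on n j i h1 h2 h3 h4 h5 h6 h7).2 ⟨by omega, by omega⟩
        have := bmax n h1 h2 this
        omega
  · -- no side on the box
    push Not at hI
    set Q : ℕ → Prop := fun n => d.n1 ≤ n ∧ n < d.n2 ∧ d.oc' n ∈ Pg.flat d.K d.C ∧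
      ∃ j i, 0 < j ∧ j < d.ln o δ n ∧ i < per X Kv ∧ rl X Kv i = d.ol o δ n j ∧ i ≤ p1 with hQ
    obtain ⟨b, b1, b2, b3, b4⟩ : ∃ b, d.n1 ≤ b ∧ b ≤ d.n2 ∧ (∀ n, Q n → n < b) ∧
        (b = d.n1 ∨ Q (b - 1) ∧ 0 < b) := by
      by_cases hne : ∃ n, Q n
      · obtain ⟨T, hT⟩ : ∃ T : Finset ℕ, ∀ n, n ∈ T ↔ Q n :=
          ⟨(range d.n2).filter Q, fun n => by
            rw [mem_filter, mem_range]; exact ⟨fun h => h.2, fun h => ⟨h.2.1, h⟩⟩⟩
        obtain ⟨n0, hn0⟩ := hne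
        have hne' : T.Nonempty := ⟨n0, (hT _).2 hn0⟩
        have hmx := (hT _).1 (T.max'_mem hne')
        refine ⟨T.max' hne' + 1, by have := hmx.1; omega, by have := hmx.2.1; omega,
          fun n hn => ?_, Or.inr ⟨by simpa using hmx, by omega⟩⟩
        have := T.le_max' n ((hT n).2 hn)
        omega
      · exact ⟨d.n1, le_rfl, hn12, fun n hn => absurd ⟨n, hn⟩ hne, Or.inl rfl⟩
    have hno : ∀ n j i, d.n1 ≤ n → n < d.n2 → d.oc' n ∈ Pg.flat d.K d.C → 0 < j →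
        j < d.ln o δ n → i < per X Kv → rl X Kv i = d.ol o δ n j → ¬ (p0 ≤ i ∧ i ≤ p1) := by
      intro n j i h1 h2 h3 h4 h5 h6 h7 h8
      exact hI n h1 h2 ((pos_on n j i h1 h2 h3 h4 h5 h6 h7).2 h8)
    have hcut : Cut d o δ X Kv (p1 + 1) (b - d.n1) := by
      intro n h1 h2 h3 j h4 h5 i h6 h7
      rw [show d.n1 + (b - d.n1) = b by omega]
      constructor
      · intro h8
        by_contra h9
        rcases b4 with b4 | ⟨⟨c1, c2, c3, j', i', c4, c5, c6, c7, c8⟩, b5⟩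
        · omega
        · rcases Nat.eq_or_lt_of_le (show n ≤ b - 1 by omega) with h10 | h10
          · rw [← h10] at c1 c2 c3 c5 c7
            have h11 := hno n j' i' c1 c2 c3 c4 c5 c6 c7
            exact no_mix S h1 h2 h3 hp hp0 (fun j i a b c e => hno n j i h1 h2 h3 a b c e)
              c4 c5 h4 h5 c6 h6 c7 h7 (by omega) (by omega)
          · have m1 := S.mono n j (b - 1) j' h1 h2 c1 c2 h4 h5 c4 c5 (S.perp_ol h3 h4 h5).1
              (S.perp_ol c3 c4 c5).1 (Or.inl h10) i h6 i' c6 h7 c7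
            omega
      · intro h8
        by_contra h9
        have := b3 n ⟨h1, h2, h3, j, i, h4, h5, h6, h7, by omega⟩
        omega
    refine ⟨b, b, b1, le_rfl, b2, fun n h1 h2 => ⟨fun h3 => absurd h3 (hI n h1 h2), by omega⟩,
      ?_, hcut⟩
    intro n h1 h2 h3 j h4 h5 i h6 h7
    rw [← hcut n h1 h2 h3 j h4 h5 i h6 h7]
    have := hno n j i h1 h2 h3 h4 h5 h6 h7
    omega

end

end Pool.Agent.Q1.M3.Asm
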