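import Pool.Agent.Q1.M3.Asm.Fin
import Pool.Agent.H14.NB.NLem0

set_option autoImplicit false
open Finset Filter Topology

/-! # Module M3, assembly: the path rarely leaves through a label which is neither free nor wired -/

namespace Pool.Agent.Q1.M3.Asm

open Pool.Agent.H75.Perc Pool.Agent.H75.TwoArm Pool.Agent.H75.Four Pool.Agent.H69.Q1
open Pool.Agent.H28.Q1 Pool.Agent.H99.NC
open Pool.Agent.H81.Q1 (pt DDomain Approx IsJordanDomain IsArcs)
open Pool.Agent.Q1.M3.Pg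

variable {D : Set ℂ} {a b : ℂ} {A₁ A₂ : Set ℂ} {A : Approx D a b A₁ A₂} {r0 : ℝ} (B : Base A r0)

/-- The bad event happens near `b`. -/
theorem bad_near (hDo : IsOpen D) (hDb : Bornology.IsBounded D) (hA : IsArcs D a b A₁ A₂)
    {r' : ℝ} (hr' : 0 < r') :
    ∀ᶠ n in atTop, ∀ k0 j ω, ω ⊆ (X0 A n).E → ¬ B.Fin n (B.X k0 n j ω) →
      ∀ C : Finset Cell, star (Vn (A.δ n) B.o C) ⊆ (B.X k0 n j ω).E →
      ∀ η, Bad (B.X k0 n j ω) (Vn (A.δ n) B.o C ∪ B.N n) η → ∃ i,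
        (∀ l < i, plab ((B.X k0 n j ω).cor η l) ∉ star (B.N n)) ∧
        dist (pt (A.δ n) (vx ((B.X k0 n j ω).cor η i))) b < r' := by
  obtain ⟨M, hM⟩ := (B.rlim.eventually_lt_const (show 0 < r' / 2 by positivity)).exists
  have hQD : ∀ q ∈ B.Q M, cfat B.o q ⊆ D := fun q hq =>
    (B.subQ M q hq).trans Set.inter_subset_left
  filter_upwards [B.hN M, Pool.Agent.H28.Q1.star_free hDo hDb hA A B.o hQD,
    A.lim.eventually_lt_const (show 0 < r' / 2 by positivity)] with n h1 h2 h3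
  obtain ⟨N', h4, h5⟩ := h1
  have hδ := A.pos n
  have hNs : Vn (A.δ n) B.o (B.Q M) ⊆ B.N n := by rw [h4]; exact subset_union_left
  intro k0 j ω hω hfin C hC η hbad
  obtain ⟨τ, g1, g2, g3, g4⟩ := hbad
  have hQ := starQ_free B hω hfin h2 hNs
  refine ⟨τ, fun l hl h => g1 l hl (star_mono subset_union_right h), ?_⟩
  obtain ⟨v, hv, h6⟩ := mem_star.1 g2
  rcases mem_union.1 hv with h7 | h7
  · exact absurd (hC (star1_sub_star h7 h6)) g3
  · rw [h4] at h7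
    rcases mem_union.1 h7 with h8 | h8
    · exact absurd (hQ (star1_sub_star h8 h6)) g3
    · have h9 := Metric.mem_ball.1 (h5 v h8)
      have h10 := dist_of_star1 hδ (plab_star1 ((B.X k0 n j ω).cor η τ)) h6
      have h11 := dist_triangle (pt (A.δ n) (vx ((B.X k0 n j ω).cor η τ))) (pt (A.δ n) v) b
      linarith

/-- **The bad event of the states `j ≥ 1`.** -/
theorem bad_succ (hDo : IsOpen D) (hDb : Bornology.IsBounded D) (hA : IsArcs D a b A₁ A₂)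
    (hr : r0 < dist a b) (k0 : ℕ) {ε : ℝ} (hε : 0 < ε) :
    ∀ᶠ n in atTop, ∀ j ω, ω ⊆ (X0 A n).E → ¬ B.Fin n (B.X k0 n (j + 1) ω) →
      ∀ C : Finset Cell, star (Vn (A.δ n) B.o C) ⊆ (B.X k0 n (j + 1) ω).E →
      Pr (B.X k0 n (j + 1) ω).E (Bad (B.X k0 n (j + 1) ω) (Vn (A.δ n) B.o C ∪ B.N n)) ≤ ε := by
  obtain ⟨r', hr', h1⟩ := Pool.Agent.H42.Q1.nlem_succ hDo hDb hA B hr k0 hε
  filter_upwards [h1, bad_near B hDo hDb hA hr'] with n h2 h3 j ω hω hfin C hC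
  refine le_trans (Pr_mono ?_) (h2 j ω hω hfin)
  intro η _ h4
  exact h3 k0 (j + 1) ω hω hfin C hC η h4

/-- **The bad event of the initial state.** -/
theorem bad_zero (hD : IsJordanDomain D) (hab : a ≠ b) (hA : IsArcs D a b A₁ A₂)
    (hr : r0 < dist a b) {ε : ℝ} (hε : 0 < ε) :
    ∀ᶠ n in atTop, ∀ C : Finset Cell, star (Vn (A.δ n) B.o C) ⊆ (X0 A n).E →
      Pr (X0 A n).E (Bad (X0 A n) (Vn (A.δ n) B.o C ∪ B.N n)) ≤ ε := by
  have hDo := hD.1
  have hDb := hD.2.2.1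
  obtain ⟨haD, hbD⟩ := Pool.Agent.H14.NB.not_mem_of_arcs hDo hA
  obtain ⟨r', hr', h1⟩ := Pool.Agent.H14.NB.nlem0 hD hab hA B hε
  filter_upwards [h1, bad_near B hDo hDb hA hr', B.reg_eventually hDb haD hr 0 0] with n h2 h3 hR C
    hC
  refine le_trans (Pr_mono ?_) h2
  intro η _ h4
  exact h3 0 0 ∅ (empty_subset _) hR.nfin C hC η h4

end Pool.Agent.Q1.M3.Asm
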