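import Pool.Agent.Q1.M3.Asm.Fin
import Pool.Agent.Q1.M3.Final
import Pool.Agent.H14.NB.StNB
import Pool.Agent.H28.Q1.Typ

set_option autoImplicit false
open Finset Filter Topology

/-! # Module M3: Q1 from the convergence of the crossing probabilities of grid polygons and the
comparison of one state -/

namespace Pool.Agent.Q1.M3.Asm

open Pool.Agent.H81.Q1 (pt DDomain Approx IsJordanDomain IsArcs)
open Pool.Agent.Q1.M5 (StC3)

/-- **Q1** from `StC3` and the comparison statements `StOne`, `StOne0`. -/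
theorem Q1_of_C3
    (h1 : ∀ (D : Set ℂ), IsJordanDomain D → ∀ (a b : ℂ) (A₁ A₂ : Set ℂ), a ≠ b →
      IsArcs D a b A₁ A₂ → ∀ (A : Approx D a b A₁ A₂) (r0 : ℝ), r0 < dist a b →
        ∀ (B : Base A r0) (k0 : ℕ), B.qb.1 ≤ k0 → StOne B k0)
    (h0 : ∀ (D : Set ℂ), IsJordanDomain D → ∀ (a b : ℂ) (A₁ A₂ : Set ℂ), a ≠ b →
      IsArcs D a b A₁ A₂ → ∀ (A : Approx D a b A₁ A₂) (r0 : ℝ), r0 < dist a b →
        ∀ (B : Base A r0) (k0 : ℕ), B.qb.1 ≤ k0 → StOne0 B k0)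
    (hC3 : StC3) : Pool.Agent.H81.Q1.Q1 := by
  refine Q1_of ?_ ?_ ?_
  · intro D hD a b A₁ A₂ hab hA A
    exact Pool.Agent.H14.NB.stNB hD hab hA A
  · intro D hD a b A₁ A₂ hab hA A r0 hr B k0 hk0
    exact stCMP_of B hD.1 hD.2.2.1 hA hr k0 (h1 D hD a b A₁ A₂ hab hA A r0 hr B k0 hk0)
      (h0 D hD a b A₁ A₂ hab hA A r0 hr B k0 hk0) hC3
  · intro D hD a b A₁ A₂ hab hA A
    exact Pool.Agent.H28.Q1.stSmall_jordan hD hA A hab

end Pool.Agent.Q1.M3.Asm
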