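import Pool.Agent.Q1.M3.Asm.Q1C3
import Pool.Agent.Q1.M5.Main

set_option autoImplicit false

/-! # Q1 from the convergence of the ratios of one-point functions -/

namespace Pool.Agent.Q1.M3.Asm

open Pool.Agent.Q1.M5 (StA)

/-- **Modules M3 and M5.** Convergence of the ratios of one-point functions of grid polygons implies
the convergence in law of the exploration path in all Jordan domains. -/
theorem Q1_of_stA (hA : StA) : Pool.Agent.H81.Q1.Q1 :=
  Q1_of_stC3 (Pool.Agent.Q1.M5.stC3_of_stA hA)

end Pool.Agent.Q1.M3.Asm
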