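import Pool.Agent.Q1.M3.Asm.Bxd
import Pool.Agent.Q1.M3.HistConv
import Pool.Agent.H42.Q1.NLem
import Pool.Agent.H48.Q1.M3.RootLt

set_option autoImplicit false
open Finset Filter Topology

/-! # Module M3, assembly: the one-step law from the estimates for one state

`Cmp1` : comparison for one state. `StOne`, `StOne0` : comparison for the states `j ≥ 1` and `j = 0`.
`stCMP_of` : `StOne`, `StOne0` and `StC3` imply `StCMP`. -/

namespace Pool.Agent.Q1.M3.Asm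

open Pool.Agent.H75.Perc Pool.Agent.H75.TwoArm Pool.Agent.H75.Four Pool.Agent.H69.Q1
open Pool.Agent.H28.Q1 Pool.Agent.H99.NC
open Pool.Agent.H81.Q1 (pt DDomain Approx IsJordanDomain IsArcs)
open Pool.Agent.H21.Q1 (Sol Wt InvL rl rc per rc_per per_pos Root Ev)
open Pool.Agent.Q1.M3.Pg
open Pool.Agent.H48.Q1.M3 (lb rt lb_add)
open Pool.Agent.Q1.M5 (StC3)

/-- The tip side: `x` = unit box of the vertex of the exit edge in the target, `d` = direction of the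
exit edge. -/
def tsd (x d : ℤ × ℤ) : (ℤ × ℤ) × ℤ :=
  (x - (2 : ℤ) • d, if d = (0, -1) then 0 else if d = (1, 0) then 1 else if d = (0, 1) then 2 else 3)

/-- **Comparison for one state.** -/
structure Cmp1 (d : SD) (o : ℂ) (δ : ℝ) (X : DEnv) (Kv : Finset (ℤ × ℤ)) (ε : ℝ) : Prop where
  tied : ∃ Y τ A p0, Tied d o δ X Y Kv τ A p0 ∧ Y.W ⊆ X.W
  cmp : ∀ j0 t, Root X Kv j0 t → ∀ y m, j0 < y → y ≤ per X Kv → m ≤ d.h → Cut d o δ X Kv y m →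
    |Pr X.E (Ev X Kv j0 t y) - d.gg (LX d.K o.re δ) (LX d.K o.im δ) m| ≤ ε
  bad : Pr X.E (Bad X Kv) ≤ ε

/-- The runs of two step data are the same sides. -/
structure SameRun (d d0 : SD) : Prop where
  h : d.h = d0.h
  eq : ∀ m < d.h, (d.sid (d.n1 + m)).1 = (d0.sid (d0.n1 + m)).1 ∧
    ((d.sid (d.n1 + m)).2 - (d0.sid (d0.n1 + m)).2) % 4 = 0

section

variable {D : Set ℂ} {a b : ℂ} {A₁ A₂ : Set ℂ} {A : Approx D a b A₁ A₂} {r0 : ℝ}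

/-- **Comparison for the states `j ≥ 1`.** -/
def StOne (B : Base A r0) (k0 : ℕ) : Prop :=
  ∃ k1, k0 ≤ k1 ∧ ∀ k, k1 ≤ k → ∀ ρ > 0, ∀ ε > 0, ∃ r > 0, ∀ BB : Cell, b ∈ fat B.o BB →
    cfat B.o BB ⊆ Metric.ball b r → ∀ᶠ M in atTop, ∀ z ∈ fat B.o BB,
    (∃ q ∈ B.Q M, z ∈ fat B.o q) → ∃ K1, ∀ K, K1 ≤ K → ∀ᶠ n in atTop,
    ∀ ω, ω ⊆ (X0 A n).E → ∀ j, ¬ B.Fin n (B.X k0 n (j + 1) ω) →
      B.Good k n ρ (B.X k0 n (j + 1) ω) →
      ∀ C, Uk D (A.δ n) B.o B.qb k0 (B.X k0 n (j + 1) ω).E ⊆ C →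
        C ⊆ Ule D (A.δ n) B.o B.qb k0 k (B.X k0 n (j + 1) ω).E → Lev B.o B.qb C →
        Cmp1 (mkSD B K (A.δ n) (B.X k0 n (j + 1) ω).E C M BB z
          (tsd (box (A.δ n) B.o K (tipv (B.F k0 n (B.X k0 n j ω).E) (lab (B.X k0 n (j + 1) ω).α)))
            (tipd (B.F k0 n (B.X k0 n j ω).E) (lab (B.X k0 n (j + 1) ω).α)))) B.o (A.δ n)
          (B.X k0 n (j + 1) ω) (Vn (A.δ n) B.o C ∪ B.N n) ε

/-- **Comparison for the initial state.** -/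
def StOne0 (B : Base A r0) (k0 : ℕ) : Prop :=
  ∃ k1, k0 ≤ k1 ∧ ∀ k, k1 ≤ k → ∀ ε > 0, ∃ r > 0, ∀ BB : Cell, b ∈ fat B.o BB →
    cfat B.o BB ⊆ Metric.ball b r → ∀ᶠ M in atTop, ∀ z ∈ fat B.o BB,
    (∃ q ∈ B.Q M, z ∈ fat B.o q) → ∃ K1, ∀ K, K1 ≤ K →
      ∀ C : Finset Cell, (∀ q ∈ C, k0 ≤ q.1 ∧ q.1 ≤ k ∧ cfat B.o q ⊆ D) → Lev B.o B.qb C →
      ∃ s0, ∀ᶠ n in atTop, Uk D (A.δ n) B.o B.qb k0 (X0 A n).E ⊆ C → ∃ s,
        Cmp1 (mkSD B K (A.δ n) (X0 A n).E C M BB z s) B.o (A.δ n)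
          (X0 A n) (Vn (A.δ n) B.o C ∪ B.N n) ε ∧
        SameRun (mkSD B K (A.δ n) (X0 A n).E C M BB z s)
          (mkSD B K (A.δ n) (X0 A n).E C M BB z s0) ∧
        ∀ m, |(mkSD B K (A.δ n) (X0 A n).E C M BB z s).gg (LX K B.o.re (A.δ n))
            (LX K B.o.im (A.δ n)) m -
          (mkSD B K (A.δ n) (X0 A n).E C M BB z s0).gg (LX K B.o.re (A.δ n))
            (LX K B.o.im (A.δ n)) m| ≤ ε

end

/-! ### One state -/

lemma sameRun_on {d d0 : SD} (hS : SameRun d d0) (hK : d.K = d0.K) {k : ℕ} {x D : ℤ × ℤ} {m : ℕ}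
    (hm : m < d.h) : OnX d k x D (d.n1 + m) ↔ OnX d0 k x D (d0.n1 + m) := by
  obtain ⟨h1, h2⟩ := hS.eq m hm
  have h3 : dir ((d.sid (d.n1 + m)).2 - 1) = dir ((d0.sid (d0.n1 + m)).2 - 1) :=
    dir_congr (by omega)
  have h4 : d.oc' (d.n1 + m) = d0.oc' (d0.n1 + m) := by
    unfold SD.oc' outc
    rw [h1, h3]
  unfold OnX sD
  rw [h4, h3, hK]

lemma sameRun_gam {d d0 : SD} (hS : SameRun d d0) (hK : d.K = d0.K) {k : ℕ} {x D : ℤ × ℤ}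
    {G : ℕ → ℝ} : gam d G k x D = gam d0 G k x D := by
  classical
  unfold gam
  rw [← hS.h]
  refine Finset.sum_congr ?_ fun _ _ => rfl
  ext m
  rw [mem_filter, mem_filter]
  refine and_congr_right fun hm => ?_
  exact sameRun_on hS hK (mem_range.1 hm)

/-- **The state.** -/
theorem sta_of {d : SD} {o : ℂ} {δ : ℝ} {X Y : DEnv} {Kv τ A : Finset (ℤ × ℤ)} {p0 : ℕ}
    (t : Tied d o δ X Y Kv τ A p0) (hI : Inv X) (hα : vx X.α ∉ Kv)
    (hfl : ∀ v, box δ o d.K v ∈ Pg.flat d.K d.C → v ∈ Kv ∧ star1 v ⊆ X.E) : Sta d o δ X Kv where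
  ok := t.ok
  fine := t.fine
  sol := ⟨hI, fun u hu v hv => by rw [t.kp_eq]; exact t.sol.conn u hu v hv,
    by rw [t.beta]; exact t.sol.beta, hα⟩
  hE := Pool.Agent.H48.Q1.M3.plab_beta hI
  notR := t.free.hK
  flat := fun v hv => ⟨(hfl v hv).1, fun D hD => (hfl v hv).2 (lb_star1 v hD)⟩
  ring := fun n j h1 h2 h3 h4 h5 => t.exists_ring h3 h4 h5
  mono := fun n j n' j' h1 h2 h3 h4 h5 h6 h7 h8 h9 h10 h11 i hi i' hi' h12 h13 =>
    t.ring_mono (lt_of_lt_of_le t.ok.mark.pos h1) (lt_of_lt_of_le h2 t.ok.mark.le')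
      (lt_of_lt_of_le h4 t.ok.mark.le') h5 h6 h7 h8 h9 h10 h11 hi hi' h12 h13

section

variable {D : Set ℂ} {a b : ℂ} {A₁ A₂ : Set ℂ} {A : Approx D a b A₁ A₂} {r0 : ℝ} (B : Base A r0)

/-- **One state and one box.** -/
theorem one_state (hDb : Bornology.IsBounded D) {k0 k K M M0 n : ℕ} (hk : k0 ≤ k) (hkK : k ≤ K)
    {s : ℝ} (hs : ∀ q ∈ cells D B.o k0, ∀ z ∈ cfat B.o q, s ≤ dist z b)
    {BB : Cell} (hBK : BB.1 ≤ K) (hBB : cfat B.o BB ⊆ Metric.ball b (s / 2))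
    (hK : 8 * mesh (K + 1) ≤ s) (hM0 : ∀ q ∈ B.Q M0, q.1 ≤ k) (hQK : ∀ q ∈ B.Q M, q.1 ≤ K)
    (hN : ∃ N' : Finset (ℤ × ℤ), B.N n = Vn (A.δ n) B.o (B.Q M0) ∪ N' ∧
      ∀ v ∈ N', pt (A.δ n) v ∈ Metric.ball b (s / 4))
    (hδ4 : A.δ n ≤ s / 4) (hδm : 3 * A.δ n ≤ mesh (k + 1))
    {X : DEnv} (hI : Inv X) {C : Finset Cell} (hC1 : Uk D (A.δ n) B.o B.qb k0 X.E ⊆ C)
    (hC2 : ∀ q ∈ C, q.1 ≤ k) (hα : vx X.α ∉ Vn (A.δ n) B.o C ∪ B.N n)
    (hfl : ∀ v, box (A.δ n) B.o K v ∈ Pg.flat K (C ∪ B.Q M) → v ∈ Vn (A.δ n) B.o C ∪ B.N n)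
    (hst : star (Vn (A.δ n) B.o (C ∪ B.Q M)) ⊆ X.E)
    {x : ℤ × ℤ} (hx : x ∈ Bxs k (Uk D (A.δ n) B.o B.qb k0 X.E))
    {e : ℤ × ℤ} (he : IsUnit4 e) {z : ℂ} {t : (ℤ × ℤ) × ℤ} {E' : Finset (ℤ × ℤ)} {ε : ℝ}
    (hε : 0 ≤ ε)
    (hcmp : Cmp1 (mkSD B K (A.δ n) E' C M BB z t) B.o (A.δ n) X (Vn (A.δ n) B.o C ∪ B.N n) ε)
    {G : ℕ → ℝ} (hG : ∀ m, |(mkSD B K (A.δ n) E' C M BB z t).gg (LX K B.o.re (A.δ n))
      (LX K B.o.im (A.δ n)) m - G m| ≤ ε) :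
    |Pr X.E (ExB (A.δ n) B.o k X (Vn (A.δ n) B.o C ∪ B.N n) x e) -
      gam (mkSD B K (A.δ n) E' C M BB z t) G k x e| ≤ 6 * ε := by
  have hδ := A.pos n
  have hg : Gen2 K B.o (A.δ n) := Pool.Agent.H53.Q1.Base_gen2 B K n
  set d := mkSD B K (A.δ n) E' C M BB z t with hd
  have hCK : ∀ q ∈ C ∪ B.Q M, q.1 ≤ K := by
    intro q hq
    rcases mem_union.1 hq with h | h
    · exact (hC2 q h).trans hkK
    · exact hQK q h
  obtain ⟨Y, τ, A', p0, tt, hW⟩ := hcmp.tied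
  have S : Sta d B.o (A.δ n) X (Vn (A.δ n) B.o C ∪ B.N n) := by
    refine sta_of tt hI hα fun v hv => ⟨hfl v hv, ?_⟩
    have h1 : v ∈ Vn (A.δ n) B.o (C ∪ B.Q M) := (mem_Vn_iff hδ hg hCK).2 hv
    exact fun l hl => hst (star1_sub_star h1 hl)
  obtain ⟨j0, v0, hR⟩ := Pool.Agent.H21.Q1.exists_root tt.sol
  have hR' := tt.root hW hR
  obtain ⟨r3, hdich⟩ := box_facts B hDb hk hkK hs hBK hBB hK hM0 hN hδ4 hδm hC1 hC2 hx he
    (z := z) (t := t) (E' := E')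
  rcases hdich with h1 | h1
  · obtain ⟨h2, h3⟩ := state_est0 (G := G) S hkK h1 r3
    rw [h2, h3, sub_zero, abs_zero]
    positivity
  · have h2 := state_est (G := G) (ε := 2 * ε) S hR' ?_ h1 (by positivity) ?_ ?_
    · linarith
    · intro n' j h3 h4 h5 h6 h7 i hi h8
      exact tt.root_lt hR (lt_of_lt_of_le tt.ok.mark.pos h3) (lt_of_lt_of_le h4 tt.ok.mark.le')
        h5 h6 h7 hi h8
    · intro y m h3 h4 h5 h6
      have h7 := hcmp.cmp j0 v0 hR' y m h3 h4 h5 h6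
      have h8 := hG m
      have h9 := abs_sub_le (Pr X.E (Ev X (Vn (A.δ n) B.o C ∪ B.N n) j0 v0 y))
        (d.gg (LX d.K B.o.re (A.δ n)) (LX d.K B.o.im (A.δ n)) m) (G m)
      have h10 : |d.gg (LX d.K B.o.re (A.δ n)) (LX d.K B.o.im (A.δ n)) m - G m| ≤ ε := h8
      linarith
    · have := hcmp.bad
      linarith

end

/-! ### Data from a history -/

section

variable {D : Set ℂ} {a b : ℂ} {A₁ A₂ : Set ℂ} {A : Approx D a b A₁ A₂} {r0 : ℝ} (B : Base A r0)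

/-- The data of a step from a history and a target. -/
noncomputable def dat (K M : ℕ) (BB : Cell) (z : ℂ) (F0 : Finset Cell)
    (s0 : Finset Cell → (ℤ × ℤ) × ℤ) (h : List (Option (Finset Cell × (ℤ × ℤ) × (ℤ × ℤ))))
    (C : Finset Cell) : SD :=
  match h.getLast? with
  | some (some v) => ⟨K, v.1.filter (fun q => q.1 = K), C ∪ B.Q M, BB, ucel B.o K z,
      tsd v.2.1 v.2.2⟩
  | _ => ⟨K, F0.filter (fun q => q.1 = K), C ∪ B.Q M, BB, ucel B.o K z, s0 C⟩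

/-- The law of a step. -/
noncomputable def Gam (K M : ℕ) (BB : Cell) (z : ℂ) (F0 : Finset Cell)
    (s0 : Finset Cell → (ℤ × ℤ) × ℤ) (k n : ℕ)
    (h : List (Option (Finset Cell × (ℤ × ℤ) × (ℤ × ℤ)))) (C : Finset Cell) (x e : ℤ × ℤ) : ℝ :=
  gam (dat B K M BB z F0 s0 h C) (fun m => (dat B K M BB z F0 s0 h C).gg
    (LX K B.o.re (A.δ n)) (LX K B.o.im (A.δ n)) m) k x e

lemma Gam_lim (hC : StC3) (K M : ℕ) (BB : Cell) (z : ℂ) (F0 : Finset Cell)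
    (s0 : Finset Cell → (ℤ × ℤ) × ℤ) (k : ℕ)
    (h : List (Option (Finset Cell × (ℤ × ℤ) × (ℤ × ℤ)))) (C : Finset Cell) (x e : ℤ × ℤ) :
    ∃ l, Tendsto (fun n => Gam B K M BB z F0 s0 k n h C x e) atTop (𝓝 l) := by
  classical
  set d := dat B K M BB z F0 s0 h C with hd
  have h1 : ∀ m, ∃ c : ℝ, Tendsto (fun n => d.gg (LX K B.o.re (A.δ n)) (LX K B.o.im (A.δ n)) m)
      atTop (𝓝 c) := by
    intro m
    obtain ⟨c, hc⟩ := d.gg_lim hC m (gx_mono K B.o.re) (gx_mono K B.o.im)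
    exact ⟨c, hc _ _ _ (app_LX K B.o A.pos A.lim)⟩
  choose c hc using h1
  unfold Gam gam
  exact ⟨_, tendsto_finsetSum _ fun m _ => (hc m).sub (hc (m + 1))⟩

lemma Uk_filter {δ : ℝ} {o : ℂ} {q0 : Cell} {k0 K : ℕ} {E : Finset (ℤ × ℤ)}
    (hD : Bornology.IsBounded D) (hk : k0 ≤ K) :
    (Ule D δ o q0 k0 K E).filter (fun q => q.1 = K) = Uk D δ o q0 K E := by
  ext q
  rw [mem_filter, mem_Uk hD, mem_Ule hD]
  constructor
  · rintro ⟨⟨-, -, h⟩, h1⟩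
    subst h1
    exact h
  · intro h
    have h1 := h.head.1
    subst h1
    exact ⟨⟨hk, le_rfl, h⟩, rfl⟩

lemma dat_succ (hD : Bornology.IsBounded D) {K M : ℕ} {BB : Cell} {z : ℂ} {F0 : Finset Cell}
    {s0 : Finset Cell → (ℤ × ℤ) × ℤ} {k0 n j : ℕ} {ω : Finset (ℤ × ℤ)} (hk : k0 ≤ K)
    (h : ¬ B.Fin n (B.X k0 n (j + 1) ω)) (C : Finset Cell) :
    dat B K M BB z F0 s0 (B.H k0 K n (j + 1) ω) C =
      mkSD B K (A.δ n) (B.X k0 n (j + 1) ω).E C M BB z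
          (tsd (box (A.δ n) B.o K (tipv (B.F k0 n (B.X k0 n j ω).E) (lab (B.X k0 n (j + 1) ω).α)))
            (tipd (B.F k0 n (B.X k0 n j ω).E) (lab (B.X k0 n (j + 1) ω).α))) := by
  have hst : B.X k0 n (j + 1) ω =
      (B.rules k0 n).nenv (B.X k0 n j ω) ((B.rules k0 n).cf j (X0 A n) ω) :=
    Rules.st_last _ _ _ _
  have e : (B.H k0 K n (j + 1) ω).getLast? = some (some
      (Ule D (A.δ n) B.o B.qb k0 K (B.X k0 n (j + 1) ω).E,
      box (A.δ n) B.o K (tipv (B.F k0 n (B.X k0 n j ω).E) (lab (B.X k0 n (j + 1) ω).α)),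
      tipd (B.F k0 n (B.X k0 n j ω).E) (lab (B.X k0 n (j + 1) ω).α))) := by
    rw [B.H_succ, List.getLast?_append]
    simp only [List.getLast?_singleton, Option.some_or]
    unfold Base.obs
    rw [← hst, if_neg h]
  unfold dat
  rw [e]
  unfold mkSD
  rw [← Uk_filter hD hk]

lemma dat_zero (hD : Bornology.IsBounded D) {K M : ℕ} {BB : Cell} {z : ℂ} {F0 : Finset Cell}
    {s0 : Finset Cell → (ℤ × ℤ) × ℤ} {k0 n : ℕ} {ω : Finset (ℤ × ℤ)} (hk : k0 ≤ K)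
    (hF : Ule D (A.δ n) B.o B.qb k0 K (X0 A n).E = F0) (C : Finset Cell) :
    dat B K M BB z F0 s0 (B.H k0 K n 0 ω) C =
      mkSD B K (A.δ n) (X0 A n).E C M BB z (s0 C) := by
  have e : (B.H k0 K n 0 ω).getLast? = none := rfl
  unfold dat
  rw [e]
  unfold mkSD
  rw [← hF, Uk_filter hD hk]

end

section

variable {D : Set ℂ} {a b : ℂ} {A₁ A₂ : Set ℂ} {A : Approx D a b A₁ A₂} {r0 : ℝ} (B : Base A r0)

/-- parameters of a step -/
lemma exists_prm (hDb : Bornology.IsBounded D) (hb : b ∉ D) (k0 : ℕ) :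
    ∃ s > 0, ∃ M0 k1, k0 ≤ k1 ∧ (∀ q ∈ cells D B.o k0, ∀ z ∈ cfat B.o q, s ≤ dist z b) ∧
      B.r M0 < s / 4 ∧ ∀ q ∈ B.Q M0, q.1 ≤ k1 := by
  obtain ⟨s, hs, h1⟩ := exists_dist (cells D B.o k0) (fun q hq => ((mem_cells hDb).1 hq).2) hb
  obtain ⟨M0, hM⟩ := (B.rlim.eventually_lt_const (show 0 < s / 4 by positivity)).exists
  obtain ⟨L, hL⟩ := exists_lev B M0
  exact ⟨s, hs, M0, max k0 L, le_max_left _ _, h1, hM, fun q hq =>
    (hL q hq).le.trans (le_max_right _ _)⟩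

/-- the level of a step -/
lemma exists_K (M k K1 : ℕ) (BB : Cell) {s : ℝ} (hs : 0 < s) :
    ∃ K, k ≤ K ∧ K1 ≤ K ∧ BB.1 ≤ K ∧ (∀ q ∈ B.Q M, q.1 ≤ K) ∧ 8 * mesh (K + 1) ≤ s := by
  obtain ⟨L, hL⟩ := exists_lev B M
  obtain ⟨K2, hK2⟩ := exists_pow_lt_of_lt_one (show 0 < s / 8 by positivity)
    (show (1 / 3 : ℝ) < 1 by norm_num)
  refine ⟨max (max k K1) (max (max BB.1 L) K2), by omega, by omega, by omega, fun q hq => ?_, ?_⟩
  · have := hL q hq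
    omega
  · have h1 : mesh (max (max k K1) (max (max BB.1 L) K2) + 1) ≤ (1 / 3 : ℝ) ^ K2 := by
      unfold mesh
      exact pow_le_pow_of_le_one (by norm_num) (by norm_num) (by omega)
    linarith

/-- **The one-step law.** -/
theorem stCMP_of (hDo : IsOpen D) (hDb : Bornology.IsBounded D) (hA : IsArcs D a b A₁ A₂)
    (hr : r0 < dist a b) (k0 : ℕ) (h1 : StOne B k0) (h0 : StOne0 B k0) (hC3 : StC3) :
    StCMP B k0 := by
  classical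
  obtain ⟨haD, hbD⟩ := Pool.Agent.H14.NB.not_mem_of_arcs hDo hA
  have hAf : A₁ ⊆ frontier D := fun z hz => hA.union ▸ Or.inl hz
  obtain ⟨s, hs0, M0, k1, hk01, hs, hM0, hM0k⟩ := exists_prm B hDb hbD k0
  obtain ⟨k2, hk02, h1⟩ := h1
  obtain ⟨k3, hk03, h0⟩ := h0
  refine ⟨max k1 (max k2 k3), by omega, ?_⟩
  intro j k hk ε hε ρ hρ
  have hk1 : k1 ≤ k := by omega
  have hk2 : k2 ≤ k := by omega
  have hk3 : k3 ≤ k := by omega
  have hk0 : k0 ≤ k := hk01.trans hk1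
  have hM0k' : ∀ q ∈ B.Q M0, q.1 ≤ k := fun q hq => (hM0k q hq).trans hk1
  have e1 : ∀ᶠ n in atTop, A.δ n < s / 4 := A.lim.eventually_lt_const (by positivity)
  have e2 : ∀ᶠ n in atTop, A.δ n < mesh (k + 1) / 3 :=
    A.lim.eventually_lt_const (by have := mesh_pos (k + 1); positivity)
  have hdirs : ∀ e ∈ dirs, IsUnit4 e := by
    intro e he
    unfold dirs at he
    simp only [mem_insert, mem_singleton] at he
    unfold IsUnit4
    tauto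
  -- facts for one state, for large n
  have key : ∀ (K M : ℕ) (BB : Cell), k ≤ K → BB.1 ≤ K → (∀ q ∈ B.Q M, q.1 ≤ K) →
      8 * mesh (K + 1) ≤ s → cfat B.o BB ⊆ Metric.ball b (s / 2) →
      Metric.ball b (B.r M) ⊆ fat B.o BB → ∀ z : ℂ,
      ∀ᶠ n in atTop, ∀ j ω, ω ⊆ (X0 A n).E → ¬ B.Fin n (B.X k0 n j ω) →
        ∀ C, Uk D (A.δ n) B.o B.qb k0 (B.X k0 n j ω).E ⊆ C →
        C ⊆ Ule D (A.δ n) B.o B.qb k0 k (B.X k0 n j ω).E →
        ∀ x ∈ Bxs k (Uk D (A.δ n) B.o B.qb k0 (B.X k0 n j ω).E), ∀ e ∈ dirs,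
        ∀ (t : (ℤ × ℤ) × ℤ) (G : ℕ → ℝ),
        Cmp1 (mkSD B K (A.δ n) (B.X k0 n j ω).E C M BB z t) B.o (A.δ n) (B.X k0 n j ω)
          (Vn (A.δ n) B.o C ∪ B.N n) (ε / 6) →
        (∀ m, |(mkSD B K (A.δ n) (B.X k0 n j ω).E C M BB z t).gg (LX K B.o.re (A.δ n))
          (LX K B.o.im (A.δ n)) m - G m| ≤ ε / 6) →
        |Pr (B.X k0 n j ω).E (ExB (A.δ n) B.o k (B.X k0 n j ω)
            (Vn (A.δ n) B.o C ∪ B.N n) x e) -
          gam (mkSD B K (A.δ n) (B.X k0 n j ω).E C M BB z t) G k x e| ≤ ε := by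
    intro K M BB hkK hBK hQK hK hBB hball z
    filter_upwards [free_state B hDo hDb hA K M hQK hBK hball, B.hN M0, e1, e2,
      B.reg_eventually hDb haD hr k0 k] with n g1 g2 g3 g4 hR j ω hω hfin C hC1 hC2 x hx e he t G
      hcmp hG
    have hC2' : ∀ q ∈ C, q.1 ≤ k := fun q hq => ((mem_Ule hDb).1 (hC2 hq)).2.1
    have hst : star (Vn (A.δ n) B.o C) ⊆ (B.X k0 n j ω).E := by
      intro l hl
      obtain ⟨v, hv, h5⟩ := mem_star.1 hl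
      obtain ⟨q, hq, h6⟩ := mem_Vn.1 hv
      exact (Ule_free hDb (hC2 hq)).2 (star1_sub_star h6 h5)
    obtain ⟨-, -, -, f4, f5⟩ := g1 k0 j ω hω hfin C (fun q hq => (hC2' q hq).trans hkK) hst z t
      (B.X k0 n j ω) subset_rfl
    obtain ⟨t1, -, -⟩ := B.tip_spec hDb hk0 hR hω j hfin
    have hα : vx (B.X k0 n j ω).α ∉ Vn (A.δ n) B.o C ∪ B.N n := by
      intro h5
      apply t1
      rcases mem_union.1 h5 with h6 | h6
      · exact mem_union_left _ (Vn_mono hC2 h6)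
      · exact mem_union_right _ h6
    have hN : ∃ N' : Finset (ℤ × ℤ), B.N n = Vn (A.δ n) B.o (B.Q M0) ∪ N' ∧
        ∀ v ∈ N', pt (A.δ n) v ∈ Metric.ball b (s / 4) := by
      obtain ⟨N', h5, h6⟩ := g2
      exact ⟨N', h5, fun v hv => Metric.ball_subset_ball hM0.le (h6 v hv)⟩
    have := one_state B hDb hk0 hkK hs hBK hBB hK hM0k' hQK hN g3.le (by linarith)
      (Pool.Agent.H42.Q1.inv_X B j ω) hC1 hC2' hα f4 f5 hx (hdirs e he) (by positivity) hcmp hG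
    linarith
  cases j with
  | zero =>
    obtain ⟨r, hr, h2⟩ := h0 k hk3 (ε / 6) (by positivity)
    obtain ⟨BB, hbB, hBr, h3⟩ := exists_par B hbD (show 0 < min r (s / 2) by positivity)
    obtain ⟨M, ⟨hball, z, hz, hzq⟩, h4⟩ := (h3.and (h2 BB hbB (hBr.trans
      (Metric.ball_subset_ball (min_le_left _ _))))).exists
    obtain ⟨K1, h5⟩ := h4 z hz hzq
    obtain ⟨K, hkK, hK1, hBK, hQK, hK⟩ := exists_K B M k K1 BB hs0
    have h6 : ∀ C : Finset Cell, ∃ s0, ((∀ q ∈ C, k0 ≤ q.1 ∧ q.1 ≤ k ∧ cfat B.o q ⊆ D) →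
        Lev B.o B.qb C → ∀ᶠ n in atTop, Uk D (A.δ n) B.o B.qb k0 (X0 A n).E ⊆ C → ∃ s,
        Cmp1 (mkSD B K (A.δ n) (X0 A n).E C M BB z s) B.o (A.δ n)
          (X0 A n) (Vn (A.δ n) B.o C ∪ B.N n) (ε / 6) ∧
        SameRun (mkSD B K (A.δ n) (X0 A n).E C M BB z s)
          (mkSD B K (A.δ n) (X0 A n).E C M BB z s0) ∧
        ∀ m, |(mkSD B K (A.δ n) (X0 A n).E C M BB z s).gg (LX K B.o.re (A.δ n))
            (LX K B.o.im (A.δ n)) m -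
          (mkSD B K (A.δ n) (X0 A n).E C M BB z s0).gg (LX K B.o.re (A.δ n))
            (LX K B.o.im (A.δ n)) m| ≤ ε / 6) := by
      intro C
      by_cases h7 : (∀ q ∈ C, k0 ≤ q.1 ∧ q.1 ≤ k ∧ cfat B.o q ⊆ D) ∧ Lev B.o B.qb C
      · obtain ⟨s0, h8⟩ := h5 K hK1 C h7.1 h7.2
        exact ⟨s0, fun _ _ => h8⟩
      · exact ⟨((0, 0), 0), fun h8 h9 => absurd ⟨h8, h9⟩ h7⟩
    choose s0 hs00 using h6
    obtain ⟨F0, hF0⟩ := B.Ule_const hDo hDb hAf hA.conn₁.nonempty k0 K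
    refine ⟨K, hkK, Gam B K M BB z F0 s0 k, Gam_lim B hC3 K M BB z F0 s0 k, ?_⟩
    have h7 : ∀ᶠ n in atTop, ∀ C ∈ (cellsLe D B.o k0 k).powerset, Lev B.o B.qb C →
        Uk D (A.δ n) B.o B.qb k0 (X0 A n).E ⊆ C → ∃ s,
        Cmp1 (mkSD B K (A.δ n) (X0 A n).E C M BB z s) B.o (A.δ n)
          (X0 A n) (Vn (A.δ n) B.o C ∪ B.N n) (ε / 6) ∧
        SameRun (mkSD B K (A.δ n) (X0 A n).E C M BB z s)
          (mkSD B K (A.δ n) (X0 A n).E C M BB z (s0 C)) ∧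
        ∀ m, |(mkSD B K (A.δ n) (X0 A n).E C M BB z s).gg (LX K B.o.re (A.δ n))
            (LX K B.o.im (A.δ n)) m -
          (mkSD B K (A.δ n) (X0 A n).E C M BB z (s0 C)).gg (LX K B.o.re (A.δ n))
            (LX K B.o.im (A.δ n)) m| ≤ ε / 6 := by
      rw [Filter.eventually_all_finset]
      intro C hC
      rw [mem_powerset] at hC
      by_cases hL : Lev B.o B.qb C
      · filter_upwards [hs00 C (fun q hq => (mem_cellsLe hDb).1 (hC hq)) hL] with n hn _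
        exact hn
      · exact Eventually.of_forall fun n h => absurd h hL
    filter_upwards [h7, hF0, key K M BB hkK hBK hQK hK (hBr.trans
      (Metric.ball_subset_ball (min_le_right _ _))) hball z] with n g1 g2 g3 ω hω hfin _ C x e hC1
      hC2 hL hx _ he
    have hX : B.X k0 n 0 ω = X0 A n := rfl
    have hCc : C ∈ (cellsLe D B.o k0 k).powerset := by
      rw [mem_powerset]
      exact hC2.trans (Ule_sub_cellsLe hDb)
    obtain ⟨t, q1, q2, q3⟩ := g1 C hCc hL (by rw [hX] at hC1; exact hC1)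
    unfold Gam
    rw [dat_zero B hDb (hk0.trans hkK) g2 C]
    rw [← sameRun_gam q2 rfl]
    exact g3 0 ω hω hfin C hC1 hC2 x hx e he t _ q1 q3
  | succ j =>
    obtain ⟨r, hr, h2⟩ := h1 k hk2 ρ hρ (ε / 6) (by positivity)
    obtain ⟨BB, hbB, hBr, h3⟩ := exists_par B hbD (show 0 < min r (s / 2) by positivity)
    obtain ⟨M, ⟨hball, z, hz, hzq⟩, h4⟩ := (h3.and (h2 BB hbB (hBr.trans
      (Metric.ball_subset_ball (min_le_left _ _))))).exists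
    obtain ⟨K1, h5⟩ := h4 z hz hzq
    obtain ⟨K, hkK, hK1, hBK, hQK, hK⟩ := exists_K B M k K1 BB hs0
    refine ⟨K, hkK, Gam B K M BB z ∅ (fun _ => ((0, 0), 0)) k,
      Gam_lim B hC3 K M BB z ∅ (fun _ => ((0, 0), 0)) k, ?_⟩
    filter_upwards [h5 K hK1, key K M BB hkK hBK hQK hK (hBr.trans
      (Metric.ball_subset_ball (min_le_right _ _))) hball z] with n g1 g3 ω hω hfin hgood C x e hC1
      hC2 hL hx _ he
    have q1 := g1 ω hω j hfin (hgood (Nat.succ_ne_zero j)) C hC1 hC2 hL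
    unfold Gam
    rw [dat_succ B hDb (hk0.trans hkK) hfin C]
    exact g3 (j + 1) ω hω hfin C hC1 hC2 x hx e he _ _ q1 (fun m => by
      rw [sub_self, abs_zero]; positivity)

end

end Pool.Agent.Q1.M3.Asm
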