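import Pool.Agent.Q1.M3.Asm.BadN
import Pool.Agent.H14.NB.J0a
import Pool.Agent.H28.Q1.Dead
import Pool.Agent.H21.Q1.StD

set_option autoImplicit false
open Finset Filter Topology

/-! # Module M3, assembly: fields of `StD` for the states of the chain -/

namespace Pool.Agent.Q1.M3.Asm

open Pool.Agent.H75.Perc hiding WL
open Pool.Agent.H75.TwoArm Pool.Agent.H75.Four Pool.Agent.H69.Q1
open Pool.Agent.H28.Q1 Pool.Agent.H99.NC
open Pool.Agent.H81.Q1 (pt DDomain Approx IsJordanDomain IsArcs)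
open Pool.Agent.Q1.M3.Pg
open Pool.Agent.Q1.M4 (IsSide nextSide tail)
open Pool.Agent.H5.Q1

/-! ### Points of the sides -/

lemma sp_four (X Y : ℤ → ℤ) (s : (ℤ × ℤ) × ℤ) (j : ℕ) : sp X Y (s.1, s.2 + 4) j = sp X Y s j := by
  have h1 : dir (s.2 + 4) = dir s.2 := dir_congr (by omega)
  have h2 : tail (s.1, s.2 + 4) = tail s := by
    unfold Pool.Agent.Q1.M4.tail
    simp only
    have e : (s.2 + 4) % 4 = s.2 % 4 := by omega
    rw [e]
  unfold sp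
  rw [h2]
  simp only [h1]

section

variable {d : SD} {o : ℂ} {δ : ℝ}

/-- The points of a side are near its outer cell. -/
lemma pt_nb (h : d.Ok) (hf : d.Fine o δ) {n j : ℕ} (hj : j ≤ d.ln o δ n) :
    NB 2 (d.oc' n) (box δ o d.K (d.pt' o δ n j)) :=
  Pool.Agent.H14.NB.sp_near' (ct := d.s.1) hf.hδ hf.hm hf.gen h.typed (SD.isSide h n) hj

/-- The points of a side are near its outer cell. -/
lemma pt_dist (h : d.Ok) (hf : d.Fine o δ) {n j : ℕ} (hj : j ≤ d.ln o δ n) :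
    dist (gpt o d.K (d.oc' n)) (pt δ (d.pt' o δ n j)) ≤ 6 * mesh (d.K + 1) := by
  have h1 := Pool.Agent.H14.NB.near_dist (δ := δ) o d.K (pt_nb h hf hj).symm
  push_cast at h1
  linarith

/-- The points with a near box. -/
lemma nb_dist (h : d.Ok) (hf : d.Fine o δ) {n j : ℕ} (hj : j ≤ d.ln o δ n) {r : ℤ} {v : ℤ × ℤ}
    (hv : NB r (d.oc' n) (box δ o d.K v)) :
    dist (pt δ v) (pt δ (d.pt' o δ n j)) ≤ (2 * r + 8) * mesh (d.K + 1) := by
  have h1 := pt_dist h hf hj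
  have h2 := Pool.Agent.H14.NB.near_dist (δ := δ) o d.K hv.symm
  have h3 := dist_triangle_left (pt δ v) (pt δ (d.pt' o δ n j)) (gpt o d.K (d.oc' n))
  linarith

/-- **A side of the run outside the coarse family is near the end point.** -/
theorem runb_of (h : d.Ok) (hf : d.Fine o δ) {b : ℂ} {ρ : ℝ} (hBK : d.B.1 ≤ d.K)
    (hBB : cfat o d.B ⊆ Metric.ball b (ρ / 2)) (hK : 12 * mesh (d.K + 1) ≤ ρ) :
    ∀ s, d.n1 ≤ s → s < d.n2 → d.oc' s ∉ Pg.flat d.K d.C → ∀ j ≤ d.ln o δ s,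
      dist (pt δ (d.pt' o δ s j)) b < ρ := by
  intro s h1 h2 h3 j hj
  have h4 := (h.mark.run s (lt_of_lt_of_le h2 h.mark.le')).2 ⟨h1, h2⟩
  have h5 : d.oc' s ∈ d.H2 := SD.H_sub_H2 h4
  have h6 : d.oc' s ∈ Pg.flat d.K d.C ∪ (fc d.K d.B ∩ d.P) := h5
  rcases mem_union.1 h6 with h7 | h7
  · exact absurd h7 h3
  · have h8 := Metric.mem_ball.1 (hBB (Pool.Agent.H14.NB.gpt_mem (o := o) hBK (mem_inter.1 h7).1))
    have h9 := pt_dist h hf hj
    have h10 := dist_triangle_left (pt δ (d.pt' o δ s j)) b (gpt o d.K (d.oc' s))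
    linarith

/-- **There is a free side.** -/
theorem n2N_of (h : d.Ok) (hf : d.Fine o δ) {p b : ℂ} {ρ ρK : ℝ} {Kv : Finset (ℤ × ℤ)}
    (hr : d.n1 < d.n2) (hρ : 0 < ρ) (hKρ : 12 * mesh (d.K + 1) ≤ ρ) (hρK : 2 * ρ ≤ ρK)
    (hpb : 2 * ρK ≤ dist p b) (Kp : ∀ v ∈ Kv, ρK ≤ dist (pt δ v) p)
    (flat : ∀ v, box δ o d.K v ∈ Pg.flat d.K d.C → v ∈ Kv)
    (runb : ∀ s, d.n1 ≤ s → s < d.n2 → d.oc' s ∉ Pg.flat d.K d.C → ∀ j ≤ d.ln o δ s,
      dist (pt δ (d.pt' o δ s j)) b < ρ)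
    (tip : ∀ j ≤ d.ln o δ 0, dist (pt δ (d.pt' o δ 0 j)) p < ρ) : d.n2 < d.N := by
  by_contra hcon
  have hN : d.n2 = d.N := by have := h.mark.le'; omega
  obtain ⟨m, hm⟩ : ∃ m, d.N = m + 1 := ⟨d.N - 1, by have := h.mark.walk.three; omega⟩
  have e1 := SD.pt_next (o := o) (δ := δ) (d := d) hf m
  have e2 : d.pt' o δ (m + 1) 0 = d.pt' o δ 0 0 := by
    unfold SD.pt'
    have hsN : d.sid (m + 1) = (d.s.1, d.s.2 + 4) := by rw [← hm]; exact h.mark.walk.period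
    rw [hsN]
    have e3 : d.sid 0 = d.s := rfl
    rw [e3]
    exact sp_four _ _ _ _
  have h1 := tip 0 (Nat.zero_le _)
  rw [← e2, ← e1] at h1
  have hl := SD.three_ln hf m
  by_cases h2 : d.oc' m ∈ Pg.flat d.K d.C
  · have h3 := (SD.side_box' h hf (n := m) (j := 1) one_pos (lt_of_lt_of_le (by norm_num) hl)).2
    have h4 := Kp _ (flat _ (by rw [h3]; exact h2))
    have h5 := nb_dist h hf (n := m) (j := d.ln o δ m) le_rfl (r := 0)
      (v := d.pt' o δ m 1 + dir ((d.sid m).2 - 1)) (by rw [h3]; exact NB.refl le_rfl _)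
    have h6 := dist_triangle (pt δ (d.pt' o δ m 1 + dir ((d.sid m).2 - 1)))
      (pt δ (d.pt' o δ m (d.ln o δ m))) p
    push_cast at h5
    linarith
  · have h3 := runb m (by omega) (by omega) h2 (d.ln o δ m) le_rfl
    have h4 := dist_triangle_left p b (pt δ (d.pt' o δ m (d.ln o δ m)))
    linarith

/-- **The sides away from the tip and the end point are free.** -/
theorem fr_of (h : d.Ok) (hf : d.Fine o δ) {p b : ℂ} {ρ : ℝ} {Kv τ A E : Finset (ℤ × ℤ)}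
    (hBK : d.B.1 ≤ d.K) (hBB : cfat o d.B ⊆ Metric.ball b (ρ / 4)) (hK : 120 * mesh (d.K + 1) ≤ ρ)
    (hbox : ∀ v ∈ Kv, box δ o d.K v ∈ Pg.flat d.K d.C ∨ box δ o d.K v ∈ fc d.K d.B)
    (hτ : ∀ v, Vl τ v → dist (pt δ v) p < ρ / 2)
    (hA : ∀ e ∈ A, dist (pt δ (eu e)) p < ρ / 2 ∧ dist (pt δ (ev e)) p < ρ / 2)
    (hdead : ∀ i, d.oc' i ∉ d.P → DeadAt d.K o δ d.P E (d.oc' i)) :
    ∀ s, 0 < s → s < d.N → ¬ (d.n1 ≤ s ∧ s < d.n2) → ∀ j ≤ d.ln o δ s,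
      ρ ≤ dist (pt δ (d.pt' o δ s j)) p → ρ ≤ dist (pt δ (d.pt' o δ s j)) b →
      Fr d.K o δ d.P Kv τ A E (d.oc' s) := by
  intro s _ hsN hrun j hj hp hb
  have hm := mesh_pos (d.K + 1)
  have near : ∀ v, NB 8 (d.oc' s) (box δ o d.K v) →
      dist (pt δ v) (pt δ (d.pt' o δ s j)) ≤ 24 * mesh (d.K + 1) := by
    intro v hv
    have h1 := nb_dist h hf hj hv
    push_cast at h1
    linarith
  have tip : ∀ v, dist (pt δ v) p < ρ / 2 → ¬ NB 8 (d.oc' s) (box δ o d.K v) := by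
    intro v hv hv'
    have h1 := near v hv'
    have h2 := dist_triangle_left (pt δ (d.pt' o δ s j)) p (pt δ v)
    linarith
  refine ⟨?_, fun v hv => tip v (hτ v hv), fun e he => ⟨tip _ (hA e he).1, tip _ (hA e he).2⟩, ?_⟩
  · intro v hv hv'
    rcases hbox v hv with h1 | h1
    · exact h.typed.sub (SD.H_sub_H2 (h.flat_sub h1))
    · exfalso
      have h2 := Metric.mem_ball.1 (hBB (Pool.Agent.H14.NB.gpt_mem (o := o) hBK h1))
      have h3 := near v hv'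
      have h4 := box_dist (δ := δ) o d.K v
      have h5 := dist_triangle (pt δ (d.pt' o δ s j)) (pt δ v) b
      have h6 := dist_triangle (pt δ v) (gpt o d.K (box δ o d.K v)) b
      rw [dist_comm (pt δ (d.pt' o δ s j)) (pt δ v)] at h5
      linarith
  · rcases SD.IsMark.out h h.mark hsN hrun with h1 | ⟨-, h1⟩
    · exact hdead s h1
    · exfalso
      have h2 := Metric.mem_ball.1 (hBB (Pool.Agent.H14.NB.gpt_mem (o := o) hBK h1))
      have h3 := pt_dist h hf hj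
      have h4 := dist_triangle_left (pt δ (d.pt' o δ s j)) b (gpt o d.K (d.oc' s))
      have h5 : dist (gpt o d.K (d.oc' s)) b < ρ / 4 := h2
      linarith

end

/-! ### The states of the chain -/

/-- The size of the zones. -/
noncomputable def rr (K : ℕ) (δ : ℝ) : ℤ := ⌈14 * (mesh (K + 1) / δ)⌉ + 6

lemma rr_spec {K kk : ℕ} {δ ρ : ℝ} (hδ : 0 < δ) (h5 : 5 * δ ≤ mesh (K + 1))
    (hK : 1600 * (4 ^ kk * mesh (K + 1)) ≤ ρ) :
    14 * (mesh (K + 1) / δ) + 6 ≤ (rr K δ : ℝ) ∧ 100 * (4 ^ kk * (rr K δ : ℝ) * δ) ≤ ρ := by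
  have h1 := Int.le_ceil (14 * (mesh (K + 1) / δ))
  have h2 := Int.ceil_lt_add_one (14 * (mesh (K + 1) / δ))
  have h4 : (0 : ℝ) < 4 ^ kk := by positivity
  unfold rr
  push_cast
  refine ⟨by linarith, ?_⟩
  have h3 : ((⌈14 * (mesh (K + 1) / δ)⌉ : ℝ) + 6) * δ ≤ 16 * mesh (K + 1) := by
    have e : (14 * (mesh (K + 1) / δ)) * δ = 14 * mesh (K + 1) := by field_simp
    nlinarith
  nlinarith

section

variable {D : Set ℂ} {a b : ℂ} {A₁ A₂ : Set ℂ} {A : Approx D a b A₁ A₂} {r0 : ℝ} (B : Base A r0)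

/-- Closed labels at the target are near `b`. -/
theorem clo_of (hDo : IsOpen D) (hDb : Bornology.IsBounded D) (hA : IsArcs D a b A₁ A₂)
    {ρ : ℝ} (hρ : 0 < ρ) :
    ∀ᶠ n in atTop, ∀ k0 j ω, ω ⊆ (X0 A n).E → ¬ B.Fin n (B.X k0 n j ω) →
      ∀ C : Finset Cell, star (Vn (A.δ n) B.o C) ⊆ (B.X k0 n j ω).E →
      ∀ e ∈ star (Vn (A.δ n) B.o C ∪ B.N n), e ∉ (B.X k0 n j ω).E →
        dist (pt (A.δ n) (eu e)) b < ρ ∧ dist (pt (A.δ n) (ev e)) b < ρ := by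
  obtain ⟨M, hM⟩ := (B.rlim.eventually_lt_const (show 0 < ρ / 2 by positivity)).exists
  have hQD : ∀ q ∈ B.Q M, cfat B.o q ⊆ D := fun q hq =>
    (B.subQ M q hq).trans Set.inter_subset_left
  filter_upwards [B.hN M, Pool.Agent.H28.Q1.star_free hDo hDb hA A B.o hQD,
    A.lim.eventually_lt_const (show 0 < ρ / 2 by positivity)] with n h1 h2 h3
  obtain ⟨N', h4, h5⟩ := h1
  have hδ := A.pos n
  have hNs : Vn (A.δ n) B.o (B.Q M) ⊆ B.N n := by rw [h4]; exact subset_union_left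
  intro k0 j ω hω hfin C hC e he hE
  have hQ := starQ_free B hω hfin h2 hNs
  obtain ⟨v, hv, h6⟩ := mem_star.1 he
  rcases mem_union.1 hv with h7 | h7
  · exact absurd (hC (star1_sub_star h7 h6)) hE
  · rw [h4] at h7
    rcases mem_union.1 h7 with h8 | h8
    · exact absurd (hQ (star1_sub_star h8 h6)) hE
    · have h9 := Metric.mem_ball.1 (h5 v h8)
      have key : ∀ u : ℤ × ℤ, e ∈ star1 u → dist (pt (A.δ n) u) b < ρ := by
        intro u hu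
        have h10 := dist_of_star1 hδ hu h6
        have h11 := dist_triangle (pt (A.δ n) u) (pt (A.δ n) v) b
        linarith
      exact ⟨key _ ((mem_star1_iff (odd_star1 h6)).2 (Or.inl rfl)),
        key _ ((mem_star1_iff (odd_star1 h6)).2 (Or.inr rfl))⟩

open Pool.Agent.H21.Q1 (StD Mn Sol InvL NoCut)
open Pool.Agent.H42.Q1 (RB)

/-- **The hypotheses of the comparison for a state of the chain.** -/
theorem stD_of (hD : IsJordanDomain D) (hA : IsArcs D a b A₁ A₂) (hr : r0 < dist a b)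
    {k0 k K M kk : ℕ} (hk0 : k0 ≤ k) {BB : Cell} {ρ ρK : ℝ} (hρ : 0 < ρ) (hQK : ∀ q ∈ B.Q M, q.1 < K)
    (hkK : k < K) (hBK : BB.1 ≤ K) (hball : Metric.ball b (B.r M) ⊆ fat B.o BB)
    (hBB : cfat B.o BB ⊆ Metric.ball b (ρ / 4)) (hK : 1600 * (4 ^ kk * mesh (K + 1)) ≤ ρ)
    (far : 32 * 4 ^ kk * ρ ≤ ρK) :
    ∀ᶠ n in atTop, ∀ j ω, ω ⊆ (X0 A n).E → ¬ B.Fin n (B.X k0 n j ω) →
      ∀ C : Finset Cell, C ⊆ Ule D (A.δ n) B.o B.qb k0 k (B.X k0 n j ω).E →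
      ∀ (z : ℂ) (s : (ℤ × ℤ) × ℤ) (Y : DEnv) (τ A' : Finset (ℤ × ℤ)) (p0 : ℕ) (p : ℂ) (εN r' : ℝ),
      Tied (mkSD B K (A.δ n) (B.X k0 n j ω).E C M BB z s) B.o (A.δ n) (B.X k0 n j ω) Y
        (Vn (A.δ n) B.o C ∪ B.N n) τ A' p0 → Y.W ⊆ (B.X k0 n j ω).W →
      (∀ f, Mn Y (Vn (A.δ n) B.o C ∪ B.N n) f →
        Mn (B.X k0 n j ω) (Vn (A.δ n) B.o C ∪ B.N n) f) →
      InvL (B.X k0 n j ω) → 2 * ρK ≤ dist p b →
      (∀ v ∈ Vn (A.δ n) B.o C ∪ B.N n, ρK ≤ dist (pt (A.δ n) v) p) →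
      dist (gpt B.o K s.1) p < ρ / 2 → (∀ v, Vl τ v → dist (pt (A.δ n) v) p < ρ / 2) →
      (∀ e ∈ A', dist (pt (A.δ n) (eu e)) p < ρ / 2 ∧ dist (pt (A.δ n) (ev e)) p < ρ / 2) →
      ρ ≤ r' → Pr (B.X k0 n j ω).E (fun η => ∃ i,
        (∀ l < i, plab ((B.X k0 n j ω).cor η l) ∉ star (B.N n)) ∧
        dist (pt (A.δ n) (vx ((B.X k0 n j ω).cor η i))) b < r') ≤ εN →
      (∀ c : ℤ × ℤ, (∀ u, RB (c.1 - 4 ^ kk * rr K (A.δ n)) (c.1 + 4 ^ kk * rr K (A.δ n))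
          (c.2 - 4 ^ kk * rr K (A.δ n)) (c.2 + 4 ^ kk * rr K (A.δ n)) u →
          ρ ≤ dist (pt (A.δ n) u) p ∧ ρ ≤ dist (pt (A.δ n) u) b) →
        NoCut (B.X k0 n j ω) (c.1 - 4 ^ kk * rr K (A.δ n)) (c.1 + 4 ^ kk * rr K (A.δ n))
          (c.2 - 4 ^ kk * rr K (A.δ n)) (c.2 + 4 ^ kk * rr K (A.δ n))) →
      (∃ (S : Set (ℤ × ℤ)) (m : ℕ), (mkSD B K (A.δ n) (B.X k0 n j ω).E C M BB z s).n1 ≤ m ∧
        m < (mkSD B K (A.δ n) (B.X k0 n j ω).E C M BB z s).n2 ∧ s.1 ∈ S ∧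
        J4 (S ∩ ((mkSD B K (A.δ n) (B.X k0 n j ω).E C M BB z s).R : Set (ℤ × ℤ))) s.1
          ((mkSD B K (A.δ n) (B.X k0 n j ω).E C M BB z s).sid m).1 ∧
        ∀ v, (∃ q ∈ S, |(box (A.δ n) B.o K v).1 - q.1| ≤ 3 ∧ |(box (A.δ n) B.o K v).2 - q.2| ≤ 3) →
          ρK ≤ dist (pt (A.δ n) v) b) →
      StD (mkSD B K (A.δ n) (B.X k0 n j ω).E C M BB z s) B.o (A.δ n) (B.X k0 n j ω) Y
        (Vn (A.δ n) B.o C ∪ B.N n) τ A' p0 p b ρ ρK εN kk (rr K (A.δ n)) := by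
  have hDo := hD.1
  have hDb := hD.2.2.1
  obtain ⟨haD, hbD⟩ := Pool.Agent.H14.NB.not_mem_of_arcs hDo hA
  have h4k : (1 : ℝ) ≤ 4 ^ kk := one_le_pow₀ (by norm_num)
  have hm := mesh_pos (K + 1)
  have hK1 : 1600 * mesh (K + 1) ≤ ρ := by nlinarith
  have hρK : 2 * ρ ≤ ρK := by nlinarith
  filter_upwards [free_state B hDo hDb hA K M (fun q hq => (hQK q hq).le) hBK hball,
    clo_of B hDo hDb hA hρ, dead_mk hD A B K M hQK, B.reg_eventually hDb haD hr k0 k] with n g1 g2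
    g3 hR j ω hω hfin C hC z s Y τ A' p0 p εN r' ht hW hmn hL hpb hKp hs hτ hA' hr' hbad hcut hch
  set X := B.X k0 n j ω with hX
  set Kv := Vn (A.δ n) B.o C ∪ B.N n with hKv
  set d := mkSD B K (A.δ n) X.E C M BB z s with hd
  have hδ := A.pos n
  have hgen : Gen2 K B.o (A.δ n) := Pool.Agent.H53.Q1.Base_gen2 B K n
  have hCk : ∀ q ∈ C, q.1 ≤ k ∧ cfat B.o q ⊆ D := fun q hq =>
    ⟨((mem_Ule hDb).1 (hC hq)).2.1, (Ule_free hDb (hC hq)).1⟩
  have hst : star (Vn (A.δ n) B.o C) ⊆ X.E := by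
    intro l hl
    obtain ⟨v, hv, h5⟩ := mem_star.1 hl
    obtain ⟨q, hq, h6⟩ := mem_Vn.1 hv
    exact (Ule_free hDb (hC hq)).2 (star1_sub_star h6 h5)
  obtain ⟨f1, f2, f3, f4, f5⟩ := g1 k0 j ω hω hfin C (fun q hq => by
    have := (hCk q hq).1; omega) hst z s X subset_rfl
  have hα : vx X.α ∉ Kv := by
    intro h5
    apply (B.tip_spec hDb hk0 hR hω j hfin).1
    rcases mem_union.1 h5 with h6 | h6
    · exact mem_union_left _ (Vn_mono hC h6)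
    · exact mem_union_right _ h6
  have hok := ht.ok
  have hCK : ∀ q ∈ C ∪ B.Q M, q.1 ≤ K := by
    intro q hq
    rcases mem_union.1 hq with h | h
    · have := (hCk q h).1; omega
    · exact (hQK q h).le
  have hfl : ∀ v, box (A.δ n) B.o d.K v ∈ Pg.flat d.K d.C → v ∈ Kv ∧ star1 v ⊆ X.E := by
    intro v hv
    have h1 : v ∈ Vn (A.δ n) B.o (C ∪ B.Q M) := (mem_Vn_iff hδ hgen hCK).2 hv
    exact ⟨f4 v hv, fun l hl => f5 (star1_sub_star h1 hl)⟩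
  obtain ⟨hr1, hr2⟩ := rr_spec hδ f1.hm hK
  have hrunb := runb_of hok f1 (b := b) (ρ := ρ) hBK
    (hBB.trans (Metric.ball_subset_ball (by linarith)))
    (by change 12 * mesh (K + 1) ≤ ρ; linarith)
  have htip : ∀ j ≤ d.ln B.o (A.δ n) 0, dist (pt (A.δ n) (d.pt' B.o (A.δ n) 0 j)) p < ρ := by
    intro i hi
    have h1 := pt_nb hok f1 hi
    have h2 : NB 1 (d.oc' 0) s.1 := (NB.of_adj ⟨_, rfl⟩).symm
    have h3 := Pool.Agent.H14.NB.near_dist (δ := A.δ n) B.o K (h1.symm.trans h2)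
    push_cast at h3
    have h4 := dist_triangle_left (pt (A.δ n) (d.pt' B.o (A.δ n) 0 i)) p (gpt B.o K s.1)
    linarith
  obtain ⟨nh, hn1, hn2, -⟩ := ht.run
  exact
    { td := ht
      YW := hW
      mn := hmn
      sol := ⟨Pool.Agent.H42.Q1.inv_X B j ω, fun u hu v hv => by
        rw [ht.kp_eq]; exact ht.sol.conn u hu v hv, by rw [ht.beta]; exact ht.sol.beta, hα⟩
      invL := hL
      odd := fun e he => Pool.Agent.H28.Q1.odd_toDEnv (A.X n) e (B.X_E hω j he)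
      n2N := n2N_of hok f1 (lt_of_le_of_lt hn1 hn2) hρ
        (by change 12 * mesh (K + 1) ≤ ρ; linarith) hρK hpb hKp (fun v hv => (hfl v hv).1) hrunb htip
      r14 := hr1
      marg := hr2
      far := far
      pb := hpb
      Kp := hKp
      clo := fun e he h1 _ => g2 k0 j ω hω hfin C hst e he h1
      flat := hfl
      runb := hrunb
      tip := htip
      fr := fr_of hok f1 hBK hBB (by change 120 * mesh (K + 1) ≤ ρ; linarith) f3 hτ hA'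
        (fun i hi => g3 X.E (B.X_E hω j) C (fun q hq => ⟨lt_of_le_of_lt (hCk q hq).1 hkK,
          (hCk q hq).2⟩) f5 BB z s hok i hi)
      bad := by
        refine le_trans (Pr_mono ?_) hbad
        rintro η - ⟨i, h1, h2⟩
        exact ⟨i, fun l hl h3 => h1 l hl (star_mono subset_union_right h3), lt_of_lt_of_le h2 hr'⟩
      cut := hcut
      ch := hch }

end

end Pool.Agent.Q1.M3.Asm
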