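import Pool.Agent.Q1.M3.Asm.Exit
import Pool.Agent.Q1.M3.Pg.FreeD

set_option autoImplicit false
open Finset Filter Topology

/-! # Module M3, assembly: the boxes of the visible cells -/

namespace Pool.Agent.Q1.M3.Asm

open Pool.Agent.H75.Perc Pool.Agent.H75.TwoArm Pool.Agent.H75.Four Pool.Agent.H69.Q1
open Pool.Agent.H81.Q1 (pt DDomain Approx IsJordanDomain IsArcs)
open Pool.Agent.H21.Q1 (Sol Wt InvL rl rc per rc_per per_pos Root Ev)
open Pool.Agent.Q1.M3.Pg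
open Pool.Agent.H48.Q1.M3 (lb rt lb_add)

/-- The box of a neighbour. -/
lemma box_near {δ : ℝ} {o : ℂ} {k : ℕ} (hδ : 0 < δ) (hm : 3 * δ ≤ mesh (k + 1)) (hg : Gen2 k o δ)
    {D : ℤ × ℤ} (hD : IsUnit4 D) (v : ℤ × ℤ) :
    box δ o k (v + D) = box δ o k v ∨ box δ o k (v + D) = box δ o k v + D := by
  obtain ⟨a, b⟩ := v
  rw [box_eq, box_eq]
  rcases hD with rfl | rfl | rfl | rfl
  · simp only [Prod.mk_add_mk, add_zero]
    rcases col_succ hδ hm hg.1 a with h | h <;> rw [h] <;> simp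
  · simp only [Prod.mk_add_mk, add_zero]
    rcases col_succ hδ hm hg.2 b with h | h <;> rw [h] <;> simp
  · simp only [Prod.mk_add_mk, add_zero]
    have h := col_succ hδ hm hg.1 (a - 1)
    rw [sub_add_cancel] at h
    rw [show a + -1 = a - 1 by ring]
    rcases h with h | h <;> rw [h] <;> simp
  · simp only [Prod.mk_add_mk, add_zero]
    have h := col_succ hδ hm hg.2 (b - 1)
    rw [sub_add_cancel] at h
    rw [show b + -1 = b - 1 by ring]
    rcases h with h | h <;> rw [h] <;> simp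

/-- The unit cells of a box in a cell. -/
lemma unit_in_fc {k K : ℕ} {q : Cell} {c : ℤ × ℤ} (hq : q.1 ≤ k) (hk : k ≤ K)
    (h : cb (K - k) c ∈ boxes k q) : c ∈ fc K q := by
  unfold boxes cb at h
  rw [mem_product, mem_Ico, mem_Ico] at h
  simp only at h
  have hM : (0 : ℤ) < 3 ^ (K - k) := by positivity
  have e : (3 : ℤ) ^ (K - q.1) = 3 ^ (k - q.1) * 3 ^ (K - k) := by
    rw [← pow_add]; congr 1; omega
  rw [mem_fc]
  unfold lo hi
  rw [e]
  obtain ⟨⟨h1, h2⟩, h3, h4⟩ := h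
  rw [Int.le_ediv_iff_mul_le hM] at h1 h3
  rw [Int.ediv_lt_iff_lt_mul hM] at h2 h4
  refine ⟨⟨?_, ?_⟩, ?_, ?_⟩
  · linarith
  · linarith
  · linarith
  · linarith

lemma lb_star1 (v : ℤ × ℤ) {D : ℤ × ℤ} (hD : IsUnit4 D) : lb v D ∈ star1 v := by
  obtain ⟨a, b⟩ := v
  unfold star1 Pool.Agent.H48.Q1.M3.lb
  simp only [mem_insert, mem_singleton]
  rcases hD with rfl | rfl | rfl | rfl
  · left; ext <;> simp
  · right; right; left; ext <;> simp
  · right; left; ext <;> simp <;> ring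
  · right; right; right; ext <;> simp <;> ring

section

variable {D : Set ℂ} {a b : ℂ} {A₁ A₂ : Set ℂ} {A : Approx D a b A₁ A₂} {r0 : ℝ} (B : Base A r0)

/-- Facts on the box `x` of a visible cell and the solid set `Vn C ∪ N n`. -/
theorem box_facts (hDb : Bornology.IsBounded D) {k0 k K M M0 n : ℕ} (hk : k0 ≤ k) (hkK : k ≤ K)
    {s : ℝ} (hs : ∀ q ∈ cells D B.o k0, ∀ z ∈ cfat B.o q, s ≤ dist z b)
    {BB : Cell} (hBK : BB.1 ≤ K) (hBB : cfat B.o BB ⊆ Metric.ball b (s / 2))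
    (hK : 8 * mesh (K + 1) ≤ s) (hM0 : ∀ q ∈ B.Q M0, q.1 ≤ k)
    (hN : ∃ N' : Finset (ℤ × ℤ), B.N n = Vn (A.δ n) B.o (B.Q M0) ∪ N' ∧
      ∀ v ∈ N', pt (A.δ n) v ∈ Metric.ball b (s / 4))
    (hδ4 : A.δ n ≤ s / 4) (hδm : 3 * A.δ n ≤ mesh (k + 1))
    {X : DEnv} {C : Finset Cell} (hC1 : Uk D (A.δ n) B.o B.qb k0 X.E ⊆ C)
    (hC2 : ∀ q ∈ C, q.1 ≤ k) {x : ℤ × ℤ} (hx : x ∈ Bxs k (Uk D (A.δ n) B.o B.qb k0 X.E))
    {e : ℤ × ℤ} (he : IsUnit4 e) {z : ℂ} {t : (ℤ × ℤ) × ℤ} {E' : Finset (ℤ × ℤ)} :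
    (∀ c, cb (K - k) c = x → c ∈ Pg.flat K (C ∪ B.Q M)) ∧
    ((∀ v, box (A.δ n) B.o k v = x → v + e ∈ Vn (A.δ n) B.o C ∪ B.N n) ∨
      Bxd (mkSD B K (A.δ n) E' C M BB z t) B.o (A.δ n) X (Vn (A.δ n) B.o C ∪ B.N n) k x e) := by
  have hδ := A.pos n
  have hg : Gen2 k B.o (A.δ n) := Pool.Agent.H53.Q1.Base_gen2 B k n
  obtain ⟨q, hq, hxq⟩ := mem_Bxs.1 hx
  have hqU := (mem_Uk hDb).1 hq
  have hq1 : q.1 = k0 := hqU.head.1
  have hqF : Free D (A.δ n) B.o X.E q := hqU.head.2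
  have hqk : q.1 ≤ k := by omega
  have hqc : q ∈ cells D B.o k0 := Uk_sub_cells hDb hq
  have hunit : ∀ c, cb (K - k) c = x → c ∈ fc K q := fun c hc =>
    unit_in_fc hqk hkK (by rw [hc]; exact hxq)
  have hvq : ∀ v, box (A.δ n) B.o k v = x → v ∈ verts (A.δ n) B.o q := by
    intro v hv
    have h1 : v ∈ Vn (A.δ n) B.o {q} := by
      rw [mem_Vn_iff_box hδ (B.gen' n) (k := k) (fun p hp => by
        rw [mem_singleton.1 hp]; exact hqk)]
      rw [hv]
      exact mem_Bxs.2 ⟨q, mem_singleton_self _, hxq⟩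
    obtain ⟨p, hp, h2⟩ := mem_Vn.1 h1
    rwa [mem_singleton.1 hp] at h2
  have r3 : ∀ c, cb (K - k) c = x → c ∈ Pg.flat K (C ∪ B.Q M) := fun c hc =>
    mem_flat.2 ⟨q, mem_union_left _ (hC1 hq), hunit c hc⟩
  refine ⟨r3, ?_⟩
  obtain ⟨N', hN1, hN2⟩ := hN
  set S := C ∪ B.Q M0 with hS
  have hSk : ∀ q ∈ S, q.1 ≤ k := by
    intro p hp
    rcases mem_union.1 hp with h | h
    · exact hC2 p h
    · exact hM0 p h
  have hVS : ∀ v, v ∈ Vn (A.δ n) B.o S → v ∈ Vn (A.δ n) B.o C ∪ B.N n := by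
    intro v hv
    rw [hS, Vn_union] at hv
    rw [hN1]
    simp only [mem_union] at hv ⊢
    tauto
  by_cases hxe : x + e ∈ Bxs k S
  · left
    intro v hv
    apply hVS
    rw [mem_Vn_iff_box hδ (B.gen' n) (k := k) hSk]
    rcases box_near hδ hδm hg he v with h | h
    · rw [h, hv, Bxs_union]
      exact mem_union_left _ (mem_Bxs.2 ⟨q, hC1 hq, hxq⟩)
    · rw [h, hv]; exact hxe
  · right
    refine ⟨hkK, he, ?_, ?_, r3, ?_⟩
    · intro v hv
      have h1 := hvq v hv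
      refine ⟨mem_union_left _ (mem_Vn.2 ⟨q, hC1 hq, h1⟩), fun D' hD' => ?_⟩
      exact hqF.2 (mem_star.2 ⟨v, h1, lb_star1 v hD'⟩)
    · intro v hv hvK
      have hbx : box (A.δ n) B.o k (v + e) = x + e := by
        rcases box_near hδ hδm hg he v with h | h
        · exact absurd (h.trans hv.1) hv.2
        · rw [h, hv.1]
      have hnS : v + e ∉ Vn (A.δ n) B.o S := by
        rw [mem_Vn_iff_box hδ (B.gen' n) (k := k) hSk, hbx]
        exact hxe
      have hN' : v + e ∈ N' := by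
        rw [hS, Vn_union] at hnS
        rw [hN1] at hvK
        simp only [mem_union, not_or] at hvK hnS
        tauto
      have h1 := Metric.mem_ball.1 (hN2 _ hN')
      have h2 := hs q hqc _ (fat_sub_cfat _ _ ((mem_verts hδ).1 (hvq v hv.1)))
      have hodd : ((lb v e).1 + (lb v e).2) % 2 = 1 := odd_star1 (lb_star1 v he)
      have h3 : dist (pt (A.δ n) v) (pt (A.δ n) (v + e)) ≤ A.δ n := by
        refine dist_of_star1 (e := lb v e) hδ (lb_star1 v he) ?_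
        have h4 := lb_star1 (v + e) (Pool.Agent.Q1.M3.Pg.isUnit4_neg he)
        rwa [Pool.Agent.H48.Q1.M3.lb_neg] at h4
      have h4 := dist_triangle (pt (A.δ n) v) (pt (A.δ n) (v + e)) b
      linarith
    · intro c c' hc hc' h1 h2
      have hp := mesh_pos (K + 1)
      have g1 := Metric.mem_ball.1 (hBB (corner_mem (o := B.o) hBK hc))
      have g2 := hs q hqc _ (corner_mem (o := B.o) (by omega : q.1 ≤ K) (hunit c' hc'))
      set pc : ℂ := ⟨B.o.re + c.1 * mesh (K + 1), B.o.im + c.2 * mesh (K + 1)⟩ with hpc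
      set pc' : ℂ := ⟨B.o.re + c'.1 * mesh (K + 1), B.o.im + c'.2 * mesh (K + 1)⟩ with hpc'
      have g3 : dist pc' pc ≤ 4 * mesh (K + 1) := by
        rw [Complex.dist_eq]
        refine (Complex.norm_le_abs_re_add_abs_im _).trans ?_
        have e1 : (pc' - pc).re = ((c'.1 - c.1 : ℤ) : ℝ) * mesh (K + 1) := by
          rw [Complex.sub_re, hpc, hpc']; push_cast; ring
        have e2 : (pc' - pc).im = ((c'.2 - c.2 : ℤ) : ℝ) * mesh (K + 1) := by
          rw [Complex.sub_im, hpc, hpc']; push_cast; ring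
        have a1 : |((c'.1 - c.1 : ℤ) : ℝ)| ≤ 2 := by
          rw [abs_sub_comm] at h1
          rw [← Int.cast_abs]; exact_mod_cast h1
        have a2 : |((c'.2 - c.2 : ℤ) : ℝ)| ≤ 2 := by
          rw [abs_sub_comm] at h2
          rw [← Int.cast_abs]; exact_mod_cast h2
        rw [e1, e2, abs_mul, abs_mul, abs_of_pos hp]
        nlinarith
      have g4 := dist_triangle pc' pc b
      linarith

end

end Pool.Agent.Q1.M3.Asm
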