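import Pool.Agent.Q1.M3.Pg.Ok
import Pool.Agent.Q1.M3.HistConv

set_option autoImplicit false
open Finset Filter Topology

/-! # Module M3, assembly: the number of sides of a step is bounded uniformly in the lattice -/

namespace Pool.Agent.Q1.M3.Asm

open Pool.Agent.H81.Q1 (pt DDomain Approx IsJordanDomain IsArcs)
open Pool.Agent.Q1.M3.Pg
open Pool.Agent.Q1.M4 (IsSide nextSide)

/-- The number of sides. -/
lemma N_le {d : SD} (h : d.Ok) : d.N ≤ 4 * d.P.card := by
  classical
  have h1 : ∀ n, IsSide d.R ((nextSide d.R)^[n] d.s) := fun n =>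
    Pool.Agent.Q1.M4.isSide_iter h.side n
  have h2 : (range d.N).card ≤ (d.P ×ˢ range 4).card := by
    refine card_le_card_of_injOn
      (fun n => (((nextSide d.R)^[n] d.s).1, (((nextSide d.R)^[n] d.s).2 % 4).toNat)) ?_ ?_
    · intro n _
      have h3 := (mem_sdiff.1 (SD.R_sub (h1 n).1)).1
      simp only [coe_product, Set.mem_prod, mem_coe, mem_range]
      exact ⟨h3, by omega⟩
    · intro n hn n' hn' h3
      simp only [Prod.mk.injEq] at h3
      refine h.mark.walk.inj n (mem_range.1 (by simpa using hn)) n'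
        (mem_range.1 (by simpa using hn')) h3.1 ?_
      have := h3.2
      omega
  rw [card_range, card_product, card_range] at h2
  omega

lemma h_le {d : SD} (h : d.Ok) : d.h ≤ 4 * d.P.card := by
  have h1 := N_le h
  have h2 := h.mark.le'
  unfold SD.h
  omega

section

variable {D : Set ℂ} {a b : ℂ} {A₁ A₂ : Set ℂ} {A : Approx D a b A₁ A₂} {r0 : ℝ} (B : Base A r0)

/-- **The number of sides is bounded uniformly in the lattice.** -/
theorem exists_cardP (hDb : Bornology.IsBounded D) (K M k0 k : ℕ) :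
    ∃ m : ℕ, ∀ (δ : ℝ) (E : Finset (ℤ × ℤ)) (C : Finset Cell), C ⊆ cellsLe D B.o k0 k →
      ∀ (BB : Cell) (z : ℂ) (s : (ℤ × ℤ) × ℤ), (mkSD B K δ E C M BB z s).P.card ≤ m := by
  have key : ∃ m : ℕ, ∀ p ∈ (cells D B.o K).powerset ×ˢ (cellsLe D B.o k0 k).powerset,
      (PP K p.1 (p.2 ∪ B.Q M)).card ≤ m :=
    ⟨_, fun p hp => Finset.le_sup (f := fun p : Finset Cell × Finset Cell =>
      (PP K p.1 (p.2 ∪ B.Q M)).card) hp⟩
  obtain ⟨m, hm⟩ := key
  refine ⟨m, fun δ E C hC BB z s => ?_⟩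
  have h1 : (Uk D δ B.o B.qb K E, C) ∈
      (cells D B.o K).powerset ×ˢ (cellsLe D B.o k0 k).powerset :=
    mem_product.2 ⟨mem_powerset.2 (Uk_sub_cells hDb), mem_powerset.2 hC⟩
  exact hm (Uk D δ B.o B.qb K E, C) h1

end

end Pool.Agent.Q1.M3.Asm
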