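import Pool.Agent.Q1.M3.Asm.Sides
import Pool.Agent.Q1.M3.Iface

set_option autoImplicit false
open Finset

/-! # Module M3, assembly: exit through a box and the root events -/

namespace Pool.Agent.Q1.M3.Asm

open Pool.Agent.H75.Perc Pool.Agent.H75.TwoArm Pool.Agent.H75.Four
open Pool.Agent.H69.Q1 Pool.Agent.H28.Q1
open Pool.Agent.H75.TwoArm.StrandAux hiding vx_nxC
open Pool.Agent.H21.Q1 (Sol Wt InvL rl rc per rc_per per_pos Root Ev exit_iff exit_root exists_exit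
  exit_ring')
open Pool.Agent.Q1.M3.Pg
open Pool.Agent.Q1.M4 (Adj4 Conn4 Good IsSide inV inRect nextSide tail head dir_neg)
open Pool.Agent.H48.Q1.M3 (lb rt lt cr At lb_neg unit_rt plab_cr lb_kap_iff lb_perp_iff step1 lb_add
  lb_inj lb_star_iff)

lemma Pr_zero {E : Finset (ℤ × ℤ)} {A : Finset (ℤ × ℤ) → Prop} (h : ∀ ω, ω ⊆ E → ¬ A ω) :
    Pr E A = 0 := by
  classical
  rw [Pr_eq, filter_eq_empty_iff.2, card_empty]
  · simp
  · intro ω hω
    exact h ω (mem_powerset.1 hω)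

lemma Pr_and_not {E : Finset (ℤ × ℤ)} {A B : Finset (ℤ × ℤ) → Prop} (h : ∀ ω, B ω → A ω) :
    Pr E (fun ω => A ω ∧ ¬ B ω) = Pr E A - Pr E B := by
  classical
  rw [Pr_eq, Pr_eq, Pr_eq, ← sub_div]
  congr 1
  have h1 : (E.powerset.filter A) = (E.powerset.filter fun ω => A ω ∧ ¬ B ω) ∪
      (E.powerset.filter B) := by
    ext ω
    simp only [mem_union, mem_filter]
    have := h ω
    tauto
  have h2 : Disjoint (E.powerset.filter fun ω => A ω ∧ ¬ B ω) (E.powerset.filter B) := by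
    rw [disjoint_left]
    intro ω h3 h4
    exact (mem_filter.1 h3).2.2 (mem_filter.1 h4).2
  rw [h1, card_union_of_disjoint h2]
  push_cast
  ring

/-- The exploration leaves through a label which is neither free nor wired. -/
def Bad (X : DEnv) (K : Finset (ℤ × ℤ)) (ω : Finset (ℤ × ℤ)) : Prop :=
  ∃ τ, (∀ j < τ, plab (X.cor ω j) ∉ star K) ∧ plab (X.cor ω τ) ∈ star K ∧
    plab (X.cor ω τ) ∉ X.E ∧ plab (X.cor ω τ) ∉ X.W

section

variable {X : DEnv} {K : Finset (ℤ × ℤ)} {j0 : ℕ} {t : ℤ × ℤ} {o : ℂ} {δ : ℝ} {k : ℕ}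
  {x D : ℤ × ℤ}

lemma exB_label (hD : IsUnit4 D) {ω : Finset (ℤ × ℤ)} (h : ExB δ o k X K x D ω) {τ : ℕ}
    (hfirst : ∀ j < τ, plab (X.cor ω j) ∉ star K) (hexit : plab (X.cor ω τ) ∈ star K) :
    ∃ v ∈ K, v + D ∉ K ∧ plab (X.cor ω τ) = lb v D ∧ box δ o k v = x := by
  obtain ⟨i, -, h1, v, h2, h3, h4, h5⟩ := h
  have hi : i = τ := by
    rcases lt_trichotomy i τ with h6 | h6 | h6
    · exfalso
      apply hfirst i h6
      rw [h4, ← lb_add]
      exact (lb_star_iff v hD).2 (Or.inl h2)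
    · exact h6
    · exact absurd hexit (h1 τ h6)
  subst hi
  exact ⟨v, h2, h3, by rw [h4, lb_add], h5⟩

/-- Exit through the box: position of the exit label. -/
lemma exB_iff (hD : IsUnit4 D) (r1 : ∀ v, box δ o k v = x → v ∈ K)
    (r2 : ∀ v, Row (box δ o k) x D v → v + D ∉ K)
    {ω : Finset (ℤ × ℤ)} {τ : ℕ} (hτ : τ < X.len ω)
    (hfirst : ∀ j < τ, plab (X.cor ω j) ∉ star K) (hexit : plab (X.cor ω τ) ∈ star K) {i : ℕ}
    (hi : i < per X K) (h : rl X K i = plab (X.cor ω τ)) :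
    ExB δ o k X K x D ω ↔ PosR X K (box δ o k) x D i := by
  constructor
  · intro h1
    obtain ⟨v, h2, h3, h4, h5⟩ := exB_label hD h1 hfirst hexit
    exact ⟨hi, v, ⟨h5, fun h6 => h3 (r1 _ h6)⟩, by rw [h, h4]⟩
  · rintro ⟨-, v, hv, h1⟩
    exact ⟨τ, hτ, hfirst, v, r1 v hv.1, r2 v hv, by rw [← h, h1, lb_add], hv.1⟩

/-- **Exit through the box and the root events.** -/
theorem exB_ev (hK : Sol X K) (hR : Root X K j0 t) (hD : IsUnit4 D)
    (r1 : ∀ v, box δ o k v = x → v ∈ K ∧ ∀ D, IsUnit4 D → lb v D ∈ X.E)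
    (r2 : ∀ v, Row (box δ o k) x D v → v + D ∉ K) {p0 p1 : ℕ}
    (hP : ∀ q < per X K, rl X K q ∈ perp K → (PosR X K (box δ o k) x D q ↔ p0 ≤ q ∧ q ≤ p1))
    (hj0 : j0 < p0) {ω : Finset (ℤ × ℤ)} (hω : ω ⊆ X.E) (hbad : ¬ Bad X K ω) :
    ExB δ o k X K x D ω ↔ Ev X K j0 t p0 ω ∧ ¬ Ev X K j0 t (p1 + 1) ω := by
  obtain ⟨τ, h1, h2, h3⟩ := exists_exit hK hω
  by_cases hE : plab (X.cor ω τ) ∈ X.E
  · obtain ⟨i, h4, h5, h6, h7⟩ := exit_iff hK hR hω h2 h3 hE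
    have hper : rl X K i ∈ perp K := by rw [h6]; exact (exit_ring' hK hω h2 h3).1
    rw [exB_iff hD (fun v hv => (r1 v hv).1) r2 h1 h2 h3 h5 h6, hP i h5 hper, h7, h7]
    omega
  · by_cases hW : plab (X.cor ω τ) ∈ X.W
    · have h8 : ¬ Ev X K j0 t p0 ω := exit_root hK hR hω h2 h3 hW hj0
      constructor
      · intro h9
        exfalso
        obtain ⟨v, h10, h11, h12, h13⟩ := exB_label hD h9 h2 h3
        apply hE
        rw [h12]
        exact (r1 v h13).2 D hD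
      · intro h9
        exact absurd h9.1 h8
    · exact absurd ⟨τ, h2, h3, hE, hW⟩ hbad

/-- No exit through the box if its labels are before the root. -/
theorem exB_not (hK : Sol X K) (hR : Root X K j0 t) (hD : IsUnit4 D)
    (r1 : ∀ v, box δ o k v = x → v ∈ K ∧ ∀ D, IsUnit4 D → lb v D ∈ X.E)
    (hP : ∀ q, j0 < q → ¬ PosR X K (box δ o k) x D q) {ω : Finset (ℤ × ℤ)} (hω : ω ⊆ X.E) :
    ¬ ExB δ o k X K x D ω := by
  intro h
  obtain ⟨τ, h1, h2, h3⟩ := exists_exit hK hω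
  obtain ⟨v, h4, h5, h6, h7⟩ := exB_label hD h h2 h3
  have hE : plab (X.cor ω τ) ∈ X.E := by rw [h6]; exact (r1 v h7).2 D hD
  obtain ⟨i, h8, h9, h10, -⟩ := exit_iff hK hR hω h2 h3 hE
  exact hP i h8 ⟨h9, v, ⟨h7, fun h11 => h5 (r1 _ h11).1⟩, by rw [h10, h6]⟩

end

/-! ### The estimate for one state -/

/-- The sum over the sides on a box. -/
noncomputable def gam (d : SD) (G : ℕ → ℝ) (k : ℕ) (x D : ℤ × ℤ) : ℝ :=
  open Classical in
  ∑ m ∈ (range d.h).filter (fun m => OnX d k x D (d.n1 + m)), (G m - G (m + 1))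

lemma gam_zero {d : SD} {G : ℕ → ℝ} {k : ℕ} {x D : ℤ × ℤ}
    (h : ∀ n, d.n1 ≤ n → n < d.n2 → ¬ OnX d k x D n) : gam d G k x D = 0 := by
  classical
  unfold gam
  rw [filter_eq_empty_iff.2, sum_empty]
  intro m hm
  rw [mem_range] at hm
  unfold SD.h at hm
  exact h _ (by omega) (by omega)

lemma sum_tele (G : ℕ → ℝ) (a b : ℕ) (h : a ≤ b) : ∑ m ∈ Ico a b, (G m - G (m + 1)) = G a - G b := by
  induction b, h using Nat.le_induction with
  | base => simp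
  | succ b hb ih => rw [sum_Ico_succ_top hb, ih]; ring

lemma gam_Ico {d : SD} (hn : d.n1 ≤ d.n2) {G : ℕ → ℝ} {k : ℕ} {x D : ℤ × ℤ} {a b : ℕ}
    (ha : d.n1 ≤ a) (hab : a ≤ b) (hb : b ≤ d.n2)
    (h : ∀ n, d.n1 ≤ n → n < d.n2 → (OnX d k x D n ↔ a ≤ n ∧ n < b)) :
    gam d G k x D = G (a - d.n1) - G (b - d.n1) := by
  classical
  rw [← sum_tele G _ _ (by omega)]
  unfold gam
  refine Finset.sum_congr ?_ fun _ _ => rfl
  ext m
  rw [mem_filter, mem_range, mem_Ico]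
  unfold SD.h
  constructor
  · rintro ⟨h1, h2⟩
    have := (h _ (by omega) (by omega)).1 h2
    omega
  · rintro ⟨h1, h2⟩
    exact ⟨by omega, (h _ (by omega) (by omega)).2 (by omega)⟩

section

variable {d : SD} {o : ℂ} {δ : ℝ} {X : DEnv} {Kv : Finset (ℤ × ℤ)} {k : ℕ} {x D : ℤ × ℤ}
  {j0 : ℕ} {t : ℤ × ℤ}

/-- **The estimate for one state and one box.** -/
theorem state_est (S : Sta d o δ X Kv) (hR : Root X Kv j0 t)
    (hroot : ∀ n j, d.n1 ≤ n → n < d.n2 → 0 < j → j < d.ln o δ n → d.ol o δ n j ∈ perp Kv →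
      ∀ i < per X Kv, rl X Kv i = d.ol o δ n j → j0 < i)
    (H : Bxd d o δ X Kv k x D) {G : ℕ → ℝ} {ε : ℝ} (hε : 0 ≤ ε)
    (hcmp : ∀ y m, j0 < y → y ≤ per X Kv → m ≤ d.h → Cut d o δ X Kv y m →
      |Pr X.E (Ev X Kv j0 t y) - G m| ≤ ε)
    (hbad : Pr X.E (Bad X Kv) ≤ ε) :
    |Pr X.E (ExB δ o k X Kv x D) - gam d G k x D| ≤ 3 * ε := by
  classical
  have hn12 := S.ok.mark.le
  have hmem : ∀ n, d.n1 ≤ n → n < d.n2 → OnX d k x D n → ∃ i, j0 < i ∧
      PosR X Kv (box δ o k) x D i := by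
    intro n h1 h2 h3
    have hC := H.r3 _ h3.1
    have hp := (S.perp_ol hC one_pos (two_lt S n)).1
    obtain ⟨i, i1, i2⟩ := S.ring n 1 h1 h2 one_pos (two_lt S n) hp
    exact ⟨i, hroot n 1 h1 h2 one_pos (two_lt S n) hp i i1 i2,
      (side_iff S H hC one_pos (two_lt S n) i1 i2).2 h3⟩
  by_cases hex : ∃ q, j0 < q ∧ PosR X Kv (box δ o k) x D q
  · obtain ⟨q, hq0, hq⟩ := hex
    have hmf : Monotone (fun a : ℤ => col k o.re δ a) := fun a b h => col_mono S.fine.hδ h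
    have hmg : Monotone (fun a : ℤ => col k o.im δ a) := fun a b h => col_mono S.fine.hδ h
    obtain ⟨p0, p1, h1, h2, h3, h4⟩ := row_interval S.sol S.hE hmf hmg
      (bx := box δ o k) (fun v => box_eq k o δ v) H.unit H.r1 H.r2 ⟨q, hq⟩
    have perp_of : ∀ i, PosR X Kv (box δ o k) x D i → rl X Kv i ∈ perp Kv ∧ rl X Kv i ∈ X.E := by
      rintro i ⟨-, v, hv, h5⟩
      rw [h5]
      exact ⟨(lb_perp_iff v H.unit).2 (Or.inl ⟨(H.r1 v hv.1).1, H.r2 v hv⟩),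
        (H.r1 v hv.1).2 D H.unit⟩
    have hj0 : j0 < p0 := by
      by_contra hcon
      have h5 := (h4 q hq.1 (perp_of q hq).1).1 hq
      have h6 := (h4 j0 hR.lt hR.perp).2 ⟨by omega, by omega⟩
      exact disjoint_left.1 X.disj (perp_of j0 h6).2 hR.wir
    obtain ⟨a, b, c1, c2, c3, c4, c5, c6⟩ := cuts S H h1 h4 (perp_of p0 h2).1
    rw [gam_Ico hn12 c1 c2 c3 c4]
    have e1 := hcmp p0 (a - d.n1) hj0 (by have := h2.1; omega) (by unfold SD.h; omega) c5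
    have e2 := hcmp (p1 + 1) (b - d.n1) (by omega) (by have := h3.1; omega)
      (by unfold SD.h; omega) c6
    -- the exit event and the root events
    have hmono : ∀ ω, Ev X Kv j0 t (p1 + 1) ω → Ev X Kv j0 t p0 ω := fun ω h =>
      h.anti (by omega)
    have f1 : Pr X.E (ExB δ o k X Kv x D) ≤ Pr X.E (Ev X Kv j0 t p0) -
        Pr X.E (Ev X Kv j0 t (p1 + 1)) + ε := by
      have g1 : Pr X.E (ExB δ o k X Kv x D) ≤
          Pr X.E (fun ω => Ev X Kv j0 t p0 ω ∧ ¬ Ev X Kv j0 t (p1 + 1) ω) + Pr X.E (Bad X Kv) := by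
        refine le_trans (Pr_mono ?_) (Pr_or_le _ _ _)
        intro ω hω h5
        by_cases h6 : Bad X Kv ω
        · exact Or.inr h6
        · exact Or.inl ((exB_ev S.sol hR H.unit H.r1 H.r2 h4 hj0 hω h6).1 h5)
      have g2 := Pr_and_not (E := X.E) (A := Ev X Kv j0 t p0) (B := Ev X Kv j0 t (p1 + 1)) hmono
      linarith
    have f2 : Pr X.E (Ev X Kv j0 t p0) - Pr X.E (Ev X Kv j0 t (p1 + 1)) ≤
        Pr X.E (ExB δ o k X Kv x D) + ε := by
      have g1 : Pr X.E (fun ω => Ev X Kv j0 t p0 ω ∧ ¬ Ev X Kv j0 t (p1 + 1) ω) ≤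
          Pr X.E (ExB δ o k X Kv x D) + Pr X.E (Bad X Kv) := by
        refine le_trans (Pr_mono ?_) (Pr_or_le _ _ _)
        intro ω hω h5
        by_cases h6 : Bad X Kv ω
        · exact Or.inr h6
        · exact Or.inl ((exB_ev S.sol hR H.unit H.r1 H.r2 h4 hj0 hω h6).2 h5)
      have g2 := Pr_and_not (E := X.E) (A := Ev X Kv j0 t p0) (B := Ev X Kv j0 t (p1 + 1)) hmono
      linarith
    rw [abs_le] at e1 e2 ⊢
    constructor <;> linarith
  · push Not at hex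
    have h1 : Pr X.E (ExB δ o k X Kv x D) = 0 :=
      Pr_zero fun ω hω h => exB_not S.sol hR H.unit H.r1 hex hω h
    have h2 : gam d G k x D = 0 := gam_zero fun n h3 h4 h5 => by
      obtain ⟨i, h6, h7⟩ := hmem n h3 h4 h5
      exact hex i h6 h7
    rw [h1, h2, sub_zero, abs_zero]
    linarith

/-- **The estimate for one state and one box**, if the neighbouring box is in the solid set. -/
theorem state_est0 (S : Sta d o δ X Kv) (hk : k ≤ d.K)
    (r4 : ∀ v, box δ o k v = x → v + D ∈ Kv) {G : ℕ → ℝ}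
    (r3 : ∀ c, cb (d.K - k) c = x → c ∈ Pg.flat d.K d.C) :
    Pr X.E (ExB δ o k X Kv x D) = 0 ∧ gam d G k x D = 0 := by
  constructor
  · refine Pr_zero fun ω _ h => ?_
    obtain ⟨i, -, -, v, -, h3, -, h5⟩ := h
    exact h3 (r4 v h5)
  · refine gam_zero fun n h1 h2 h3 => ?_
    have hC := r3 _ h3.1
    obtain ⟨-, -, h5⟩ := S.perp_ol hC one_pos (two_lt S n)
    have hb := (side_boxes S.ok S.fine one_pos (two_lt S n)).2
    rw [h3.2] at h5
    apply h5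
    apply r4
    rw [box_coarse hk, hb]
    exact h3.1

end

end Pool.Agent.Q1.M3.Asm
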