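import Pool.Agent.Q1.M3.Asm.Top
import Pool.Agent.H42.Q1.OneD
import Pool.Agent.H14.NB.StOne0

set_option autoImplicit false

/-! # Q1 from the convergence of the crossing probabilities of grid polygons -/

namespace Pool.Agent.Q1.M3.Asm

open Pool.Agent.Q1.M5 (StC3)

/-- **Module M3.** Convergence of the crossing probabilities of grid polygons implies the convergence
in law of the exploration path in all Jordan domains. -/
theorem Q1_of_stC3 (hC3 : StC3) : Pool.Agent.H81.Q1.Q1 := by
  refine Q1_of_C3 ?_ ?_ hC3
  · intro D hD a b A₁ A₂ hab hA A r0 hr B k0 _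
    exact Pool.Agent.H42.Q1.stOne B hD hA hr k0
  · intro D hD a b A₁ A₂ hab hA A r0 hr B k0 _
    exact Pool.Agent.H14.NB.stOne0 hD hab hA B hr k0

end Pool.Agent.Q1.M3.Asm
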