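import Pool.Agent.H48.Q1.M3.Step
import Pool.Agent.Q1.M3.Pg.RingO
import Pool.Agent.Q1.M3.Pg.Chan

set_option autoImplicit false
open Finset

/-! # Module M3, assembly: the labels leaving a box are an interval of the ring -/

namespace Pool.Agent.Q1.M3.Asm

open Pool.Agent.H75.Perc Pool.Agent.H75.TwoArm Pool.Agent.H75.Four
open Pool.Agent.H69.Q1 Pool.Agent.H28.Q1
open Pool.Agent.H75.TwoArm.StrandAux hiding vx_nxC
open Pool.Agent.H21.Q1 (Sol Wt InvL rl rc per rc_per per_pos Root)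
open Pool.Agent.Q1.M3.Pg
open Pool.Agent.H48.Q1.M3 (lb rt lt cr At lb_neg unit_rt plab_cr lb_kap_iff lb_perp_iff step1 lb_add
  lb_inj)

variable {X : DEnv} {K : Finset (ℤ × ℤ)}

lemma rpos_rl {e : ℤ × ℤ} {i : ℕ} : RPos X K e i ↔ rl X K i = e ∧ i < per X K := by
  unfold RPos
  refine and_congr Iff.rfl ⟨fun h => ?_, fun h k hk0 hk => ?_⟩
  · by_contra hcon
    rw [not_lt] at hcon
    exact h (per X K) per_pos hcon rc_per
  · exact Pool.Agent.H21.Q1.rc_ne hk0 (by omega)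

lemma at_of_rl (hb : vx X.β ∈ K) {v d : ℤ × ℤ} {i : ℕ} (hd : IsUnit4 d) (hv : v ∈ K)
    (hvd : v + d ∉ K) (hi : i < per X K) (h : rl X K i = lb v d) : At X K v d i :=
  Pool.Agent.H48.Q1.M3.RPos.at hb hd hv hvd (rpos_rl.2 ⟨h, hi⟩)

/-- **Next label on a straight side.** -/
theorem straight_pos (hb : vx X.β ∈ K) (hE : plab X.β ∉ X.E) {v d : ℤ × ℤ} {i : ℕ}
    (hd : IsUnit4 d) (hv : v ∈ K) (hvd : v + d ∉ K) (h2 : v + rt d ∈ K) (h3 : v + rt d + d ∉ K)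
    (e1 : lb v (rt d) ∈ X.E) (e2 : lb (v + rt d) d ∈ X.E) (hi : i < per X K)
    (h : rl X K i = lb v d) :
    i + 2 < per X K ∧ rl X K (i + 2) = lb (v + rt d) d ∧ rl X K (i + 1) ∉ perp K := by
  have hat := at_of_rl hb hd hv hvd hi h
  have h4 := (hat.straight' hE h2 h3 e1 e2).rpos
  rw [rpos_rl] at h4
  refine ⟨h4.2, h4.1, ?_⟩
  have h5 := step1 hat.unit hat.eq hat.notMem
  have h6 : rl X K (i + 1) = lb v (rt d) := by
    change plab ((pv (Pool.Agent.H48.Q1.M3.kw X K))^[i + 1] X.β) = _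
    rw [h5, plab_cr _ (unit_rt hd)]
  rw [h6]
  unfold perp
  rw [mem_sdiff, not_and_not_right]
  intro _
  exact (lb_kap_iff v (unit_rt hd)).2 ⟨hv, h2⟩

/-! ### Rows of a box -/

/-- The vertices of the box `x` next to the side in the direction `d`. -/
def Row (bx : ℤ × ℤ → ℤ × ℤ) (x d v : ℤ × ℤ) : Prop := bx v = x ∧ bx (v + d) ≠ x

/-- The vertex at the position `t` on the line through `v` in the direction `rt d`. -/
def mv (v d : ℤ × ℤ) (t : ℤ) : ℤ × ℤ := (v.1 + t * (rt d).1, v.2 + t * (rt d).2)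

@[simp] lemma mv_zero (v d : ℤ × ℤ) : mv v d 0 = v := by unfold mv; simp

lemma mv_succ (v d : ℤ × ℤ) (t : ℤ) : mv v d (t + 1) = mv v d t + rt d := by
  unfold mv
  ext <;> simp <;> ring

lemma mv_mv (v d : ℤ × ℤ) (s t : ℤ) : mv (mv v d s) d t = mv v d (s + t) := by
  unfold mv
  ext <;> simp <;> ring

lemma line1 {f g : ℤ → ℤ} (hf : Monotone f) (hg : Monotone g) {x1 x2 a b a' b' e : ℤ}
    (he : e = 1 ∨ e = -1) (h1 : f a = x1) (h2 : g b = x2) (h3 : f (a + e) ≠ x1) (g1 : f a' = x1)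
    (g2 : g b' = x2) (g3 : f (a' + e) ≠ x1) :
    a = a' ∧ ∀ y, (b ≤ y ∧ y ≤ b') ∨ (b' ≤ y ∧ y ≤ b) → g y = x2 := by
  constructor
  · rcases he with rfl | rfl
    · rcases lt_trichotomy a a' with h | h | h
      · have e1 := hf (show a ≤ a + 1 by omega)
        have e2 := hf (show a + 1 ≤ a' by omega)
        omega
      · exact h
      · have e1 := hf (show a' ≤ a' + 1 by omega)
        have e2 := hf (show a' + 1 ≤ a by omega)
        omega
    · rcases lt_trichotomy a a' with h | h | h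
      · have e1 := hf (show a' + -1 ≤ a' by omega)
        have e2 := hf (show a ≤ a' + -1 by omega)
        omega
      · exact h
      · have e1 := hf (show a + -1 ≤ a by omega)
        have e2 := hf (show a' ≤ a + -1 by omega)
        omega
  · intro y hy
    rcases hy with ⟨h4, h5⟩ | ⟨h4, h5⟩
    · have e1 := hg h4
      have e2 := hg h5
      omega
    · have e1 := hg h4
      have e2 := hg h5
      omega

lemma row_line {f g : ℤ → ℤ} (hf : Monotone f) (hg : Monotone g) {bx : ℤ × ℤ → ℤ × ℤ}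
    (hbx : ∀ v, bx v = (f v.1, g v.2)) {x d v v' : ℤ × ℤ}
    (hd : IsUnit4 d) (hv : Row bx x d v) (hv' : Row bx x d v') : ∃ s : ℤ, v' = mv v d s ∧
      ∀ t : ℤ, (0 ≤ t ∧ t ≤ s) ∨ (s ≤ t ∧ t ≤ 0) → Row bx x d (mv v d t) := by
  obtain ⟨a, b⟩ := v
  obtain ⟨a', b'⟩ := v'
  obtain ⟨x1, x2⟩ := x
  unfold Row at *
  simp only [hbx, ne_eq, Prod.mk.injEq] at hv hv' ⊢
  obtain ⟨⟨h1, h2⟩, h3⟩ := hv
  obtain ⟨⟨g1, g2⟩, g3⟩ := hv'
  rcases hd with rfl | rfl | rfl | rfl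
  · simp only [Prod.mk_add_mk, add_zero, h2, g2, and_true] at h3 g3
    obtain ⟨rfl, hy⟩ := line1 hf hg (Or.inl rfl) h1 h2 h3 g1 g2 g3
    refine ⟨b - b', ?_, fun t ht => ?_⟩
    · unfold mv rt; ext <;> simp
    · unfold mv rt
      simp only [Prod.mk_add_mk, add_zero, mul_zero]
      have := hy (b + t * -1) (by omega)
      refine ⟨⟨h1, this⟩, fun h => h3 h.1⟩
  · simp only [Prod.mk_add_mk, add_zero, h1, g1, true_and] at h3 g3
    obtain ⟨rfl, hy⟩ := line1 hg hf (Or.inl rfl) h2 h1 h3 g2 g1 g3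
    refine ⟨a' - a, ?_, fun t ht => ?_⟩
    · unfold mv rt; ext <;> simp
    · unfold mv rt
      simp only [Prod.mk_add_mk, add_zero, mul_zero, neg_zero]
      have := hy (a + t * 1) (by omega)
      refine ⟨⟨this, h2⟩, fun h => h3 h.2⟩
  · simp only [Prod.mk_add_mk, add_zero, h2, g2, and_true] at h3 g3
    obtain ⟨rfl, hy⟩ := line1 hf hg (Or.inr rfl) h1 h2 h3 g1 g2 g3
    refine ⟨b' - b, ?_, fun t ht => ?_⟩
    · unfold mv rt; ext <;> simp
    · unfold mv rt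
      simp only [Prod.mk_add_mk, add_zero, mul_zero, neg_neg]
      have := hy (b + t * 1) (by omega)
      refine ⟨⟨h1, this⟩, fun h => h3 h.1⟩
  · simp only [Prod.mk_add_mk, add_zero, h1, g1, true_and] at h3 g3
    obtain ⟨rfl, hy⟩ := line1 hg hf (Or.inr rfl) h2 h1 h3 g2 g1 g3
    refine ⟨a - a', ?_, fun t ht => ?_⟩
    · unfold mv rt; ext <;> simp
    · unfold mv rt
      simp only [Prod.mk_add_mk, add_zero, mul_zero, neg_zero]
      have := hy (a + t * -1) (by omega)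
      refine ⟨⟨this, h2⟩, fun h => h3 h.2⟩

/-- `q` is the position of a label leaving the box `x` in the direction `d`. -/
def PosR (X : DEnv) (K : Finset (ℤ × ℤ)) (bx : ℤ × ℤ → ℤ × ℤ) (x d : ℤ × ℤ) (q : ℕ) : Prop :=
  q < per X K ∧ ∃ v, Row bx x d v ∧ rl X K q = lb v d

/-- Positions of the labels after the position `p` of the vertex `v`. -/
lemma row_pos (hb : vx X.β ∈ K) (hE : plab X.β ∉ X.E) {bx : ℤ × ℤ → ℤ × ℤ} {x d : ℤ × ℤ}
    (hd : IsUnit4 d) (r1 : ∀ v, bx v = x → v ∈ K ∧ ∀ D, IsUnit4 D → lb v D ∈ X.E)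
    (r2 : ∀ v, Row bx x d v → v + d ∉ K) {v : ℤ × ℤ} {p : ℕ} (hp : p < per X K)
    (hv : rl X K p = lb v d) : ∀ n : ℕ, (∀ t : ℤ, 0 ≤ t → t ≤ n → Row bx x d (mv v d t)) →
      p + 2 * n < per X K ∧ rl X K (p + 2 * n) = lb (mv v d n) d ∧
        ∀ m < n, rl X K (p + 2 * m + 1) ∉ perp K := by
  intro n
  induction n with
  | zero => intro _; simp; exact ⟨hp, hv⟩
  | succ n ih =>
    intro h
    obtain ⟨i1, i2, i3⟩ := ih fun t h0 h1 => h t h0 (by push_cast; omega)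
    have hn := h n (by omega) (by push_cast; omega)
    have hn1 := h (n + 1) (by omega) (by push_cast; omega)
    rw [mv_succ] at hn1
    obtain ⟨k1, k2⟩ := r1 _ hn.1
    obtain ⟨l1, l2⟩ := r1 _ hn1.1
    obtain ⟨j1, j2, j3⟩ := straight_pos hb hE hd k1 (r2 _ hn) l1 (r2 _ hn1) (k2 _ (unit_rt hd))
      (l2 _ hd) i1 i2
    refine ⟨by rw [show p + 2 * (n + 1) = p + 2 * n + 2 by ring]; exact j1, ?_, ?_⟩
    · rw [show p + 2 * (n + 1) = p + 2 * n + 2 by ring, j2]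
      push_cast
      rw [mv_succ]
    · intro m hm
      rcases Nat.lt_or_ge m n with h4 | h4
      · exact i3 m h4
      · obtain rfl : m = n := by omega
        exact j3

/-- **The labels leaving a box in one direction are an interval of the ring.** -/
theorem row_interval (hK : Sol X K) (hE : plab X.β ∉ X.E) {f g : ℤ → ℤ} (hf : Monotone f)
    (hg : Monotone g) {bx : ℤ × ℤ → ℤ × ℤ} (hbx : ∀ v, bx v = (f v.1, g v.2)) {x d : ℤ × ℤ}
    (hd : IsUnit4 d) (r1 : ∀ v, bx v = x → v ∈ K ∧ ∀ D, IsUnit4 D → lb v D ∈ X.E)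
    (r2 : ∀ v, Row bx x d v → v + d ∉ K) (hex : ∃ q, PosR X K bx x d q) :
    ∃ p0 p1, p0 ≤ p1 ∧ PosR X K bx x d p0 ∧ PosR X K bx x d p1 ∧
      ∀ q < per X K, rl X K q ∈ perp K → (PosR X K bx x d q ↔ p0 ≤ q ∧ q ≤ p1) := by
  classical
  have hb := hK.beta
  have hmin : ∃ p0, PosR X K bx x d p0 ∧ ∀ q, PosR X K bx x d q → p0 ≤ q :=
    ⟨Nat.find hex, Nat.find_spec hex, fun q hq => Nat.find_min' hex hq⟩
  obtain ⟨p0, h0, hm0⟩ := hmin
  obtain ⟨p1, h1, hm1⟩ : ∃ p1, PosR X K bx x d p1 ∧ ∀ q, PosR X K bx x d q → q ≤ p1 := by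
    obtain ⟨S, hS⟩ : ∃ S : Finset ℕ, ∀ q, q ∈ S ↔ PosR X K bx x d q :=
      ⟨(range (per X K)).filter fun q => PosR X K bx x d q, fun q => by
        rw [mem_filter, mem_range]; exact ⟨fun h => h.2, fun h => ⟨h.1, h⟩⟩⟩
    have hne : S.Nonempty := ⟨p0, (hS _).2 h0⟩
    exact ⟨S.max' hne, (hS _).1 (S.max'_mem hne), fun q hq => S.le_max' q ((hS _).2 hq)⟩
  obtain ⟨h0a, v0, hv0, h0b⟩ := h0
  obtain ⟨h1a, v1, hv1, h1b⟩ := h1
  have perp_of : ∀ v, Row bx x d v → lb v d ∈ perp K := fun v hv =>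
    (lb_perp_iff v hd).2 (Or.inl ⟨(r1 v hv.1).1, r2 v hv⟩)
  obtain ⟨s, hs, hsR⟩ := row_line hf hg hbx hd hv0 hv1
  have hle := hm0 p1 ⟨h1a, v1, hv1, h1b⟩
  have hs0 : 0 ≤ s := by
    by_contra hneg
    rw [not_le] at hneg
    -- go forward from `v1` to `v0`
    obtain ⟨n, hn⟩ : ∃ n : ℕ, (n : ℤ) = -s := ⟨(-s).toNat, by omega⟩
    obtain ⟨j1, j2, -⟩ := row_pos hb hE hd r1 r2 h1a h1b n (fun t ht0 ht1 => by
      rw [hs, mv_mv]
      exact hsR _ (Or.inr ⟨by omega, by omega⟩))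
    rw [hs, mv_mv, hn, add_neg_cancel, mv_zero] at j2
    have := hK.rl_inj h0a j1 (h0b.trans j2.symm) (by rw [h0b]; exact perp_of v0 hv0)
    omega
  obtain ⟨n, rfl⟩ : ∃ n : ℕ, s = n := ⟨s.toNat, by omega⟩
  have key : ∀ m : ℕ, m ≤ n → p0 + 2 * m < per X K ∧ rl X K (p0 + 2 * m) = lb (mv v0 d m) d ∧
      ∀ m' < m, rl X K (p0 + 2 * m' + 1) ∉ perp K := fun m hm =>
    row_pos hb hE hd r1 r2 h0a h0b m fun t ht0 ht1 => hsR t (Or.inl ⟨ht0, by omega⟩)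
  obtain ⟨k1, k2, k3⟩ := key n le_rfl
  have hp1 : p1 = p0 + 2 * n := by
    refine hK.rl_inj h1a k1 (by rw [h1b, k2, hs]) (by rw [h1b]; exact perp_of v1 hv1)
  refine ⟨p0, p1, hle, ⟨h0a, v0, hv0, h0b⟩, ⟨h1a, v1, hv1, h1b⟩, fun q hq hqp => ?_⟩
  constructor
  · intro h
    exact ⟨hm0 q h, hm1 q h⟩
  · rintro ⟨h2, h3⟩
    obtain ⟨m, hm | hm⟩ : ∃ m, q = p0 + 2 * m ∨ q = p0 + 2 * m + 1 := ⟨(q - p0) / 2, by omega⟩
    · obtain ⟨l1, l2, -⟩ := key m (by omega)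
      exact ⟨hq, _, hsR m (Or.inl ⟨by omega, by omega⟩), by rw [hm]; exact l2⟩
    · exact absurd (by rw [← hm]; exact hqp) (k3 m (by omega))

end Pool.Agent.Q1.M3.Asm
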